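import Pool.Agent.P.MP_a0f0ad_al.Rat

/-! A calculus of semilinear predicates, functions and counting functions. -/

set_option autoImplicit false

namespace Pool.Agent.P.MP_a0f0ad_al

section
variable {M N V W : Type} [AddCommMonoid M] [AddCommMonoid N] [AddCommMonoid V] [AddCommMonoid W]

/-- semilinear predicates -/
@[fun_prop] def SL (P : M → Prop) : Prop := IsSemilinearSet {m | P m}

/-- functions with semilinear graph -/
@[fun_prop] def Gr (f : M → V) : Prop := IsSemilinearSet {p : M × V | f p.1 = p.2}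

theorem SL.congr {P Q : M → Prop} (h : SL P) (e : ∀ m, P m ↔ Q m) : SL Q := by
  have : P = Q := funext fun m => propext (e m)
  rwa [← this]

theorem SL.hom [AddMonoid.FG M] {P : N → Prop} (h : SL P) (φ : M →+ N) : SL fun m => P (φ m) :=
  IsSemilinearSet.preimage h φ

@[fun_prop] theorem SL.and {P Q : M → Prop} (h : SL P) (h' : SL Q) : SL fun m => P m ∧ Q m :=
  IsSemilinearSet.inter h h'

@[fun_prop] theorem SL.or {P Q : M → Prop} (h : SL P) (h' : SL Q) : SL fun m => P m ∨ Q m :=
  IsSemilinearSet.union h h'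

theorem SL.ex {P : M → V → Prop} (h : SL fun p : M × V => P p.1 p.2) :
    SL fun m => ∃ v, P m v := by
  have := IsSemilinearSet.image h (AddMonoidHom.fst M V)
  unfold SL
  convert this using 1
  ext m
  simp

variable [AddMonoid.FG M] [AddMonoid.FG N] [AddMonoid.FG V] [AddMonoid.FG W]

@[fun_prop] theorem SL.not {P : M → Prop} (h : SL P) : SL fun m => ¬P m :=
  IsSemilinearSet.compl h

@[fun_prop] theorem SL.const (p : Prop) : SL fun _ : M => p := by
  by_cases h : p
  · simp [SL, h]
  · simp [SL, h]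

theorem SL.imp {P Q : M → Prop} (h : SL P) (h' : SL Q) : SL fun m => P m → Q m :=
  (h.not.or h').congr fun _ => by tauto

theorem SL.all {I : Type} [Finite I] {P : M → I → Prop} (h : ∀ i, SL fun m => P m i) :
    SL fun m => ∀ i, P m i := by
  have := IsSemilinearSet.iInter h
  unfold SL
  convert this using 1
  ext m
  simp

theorem Gr.hom (φ : M →+ V) : Gr fun m => φ m := by
  have := isSemilinearSet_setOfPred_eq (0 : V) 0 (φ.comp (AddMonoidHom.fst M V))
    (AddMonoidHom.snd M V)
  simpa [Gr] using this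

theorem Gr.lin (f : M → V) (h0 : f 0 = 0) (h : ∀ a b, f (a + b) = f a + f b) : Gr f :=
  Gr.hom ⟨⟨f, h0⟩, h⟩

@[fun_prop] theorem Gr.id : Gr fun m : M => m := Gr.hom (AddMonoidHom.id M)

@[fun_prop] theorem Gr.const (v : V) : Gr fun _ : M => v := by
  have := isSemilinearSet_setOfPred_eq v 0 (0 : M × V →+ V) (AddMonoidHom.snd M V)
  simpa [Gr] using this

@[fun_prop] theorem SL.comp {P : V → Prop} {f : M → V} (h : SL P) (hf : Gr f) :
    SL fun m => P (f m) := by
  have h1 : SL fun p : M × V => f p.1 = p.2 ∧ P p.2 := SL.and hf (h.hom (AddMonoidHom.snd M V))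
  exact (SL.ex (P := fun m v => f m = v ∧ P v) h1).congr fun m => by simp

@[fun_prop] theorem Gr.pair {f : M → V} {g : M → W} (hf : Gr f) (hg : Gr g) :
    Gr fun m => (f m, g m) := by
  have h1 := SL.hom (P := fun p : M × V => f p.1 = p.2) hf
    ((AddMonoidHom.id M).prodMap (AddMonoidHom.fst V W))
  have h2 := SL.hom (P := fun p : M × W => g p.1 = p.2) hg
    ((AddMonoidHom.id M).prodMap (AddMonoidHom.snd V W))
  exact (h1.and h2).congr fun p => by simp [Prod.ext_iff]

@[fun_prop] theorem Gr.comp {f : V → W} {g : M → V} (hf : Gr f) (hg : Gr g) :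
    Gr fun m => f (g m) := by
  have h1 : Gr fun p : M × W => g p.1 := by
    have := SL.hom (P := fun p : M × V => g p.1 = p.2) hg
      ((AddMonoidHom.fst M W).prodMap (AddMonoidHom.id V))
    exact this
  exact SL.comp (P := fun p : V × W => f p.1 = p.2) hf (h1.pair (Gr.hom (AddMonoidHom.snd M W)))

@[fun_prop] theorem Gr.fst {f : M → V × W} (hf : Gr f) : Gr fun m => (f m).1 :=
  (Gr.hom (AddMonoidHom.fst V W)).comp hf

@[fun_prop] theorem Gr.snd {f : M → V × W} (hf : Gr f) : Gr fun m => (f m).2 :=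
  (Gr.hom (AddMonoidHom.snd V W)).comp hf

@[fun_prop] theorem Gr.apply {I : Type} [Fintype I] (i : I) : Gr fun m : I → V => m i :=
  Gr.lin _ rfl fun _ _ => rfl

@[fun_prop] theorem SL.eq {f g : M → V} (hf : Gr f) (hg : Gr g) : SL fun m => f m = g m :=
  SL.comp (P := fun p : M × V => f p.1 = p.2) hf (Gr.id.pair hg)

@[fun_prop] theorem Gr.add {f g : M → V} (hf : Gr f) (hg : Gr g) : Gr fun m => f m + g m :=
  (Gr.lin (fun p : V × V => p.1 + p.2) (by simp) fun a b => by
    simp only [Prod.fst_add, Prod.snd_add]; abel).comp (hf.pair hg)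

@[fun_prop] theorem Gr.neg {f : M → ℤ} (hf : Gr f) : Gr fun m => -f m :=
  (Gr.lin (fun p : ℤ => -p) (by simp) fun a b => by ring).comp hf

@[fun_prop] theorem Gr.sub {f g : M → ℤ} (hf : Gr f) (hg : Gr g) : Gr fun m => f m - g m := by
  simpa only [sub_eq_add_neg] using hf.add hg.neg

@[fun_prop] theorem Gr.const_mul (c : ℤ) {f : M → ℤ} (hf : Gr f) : Gr fun m => c * f m :=
  (Gr.lin (fun p : ℤ => c * p) (by simp) fun a b => by ring).comp hf

@[fun_prop] theorem Gr.natCast {f : M → ℕ} (hf : Gr f) : Gr fun m => (f m : ℤ) :=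
  (Gr.lin (fun p : ℕ => (p : ℤ)) (by simp) fun a b => by simp).comp hf

@[fun_prop] theorem SL.le {f g : M → ℤ} (hf : Gr f) (hg : Gr g) : SL fun m => f m ≤ g m := by
  have h : SL fun p : M × ℕ => g p.1 - f p.1 = (p.2 : ℤ) := by fun_prop
  refine (SL.ex (P := fun m (k : ℕ) => g m - f m = (k : ℤ)) h).congr fun m => ⟨?_, fun h => ?_⟩
  · rintro ⟨k, hk⟩
    omega
  · exact ⟨(g m - f m).toNat, by omega⟩

@[fun_prop] theorem SL.lt {f g : M → ℤ} (hf : Gr f) (hg : Gr g) : SL fun m => f m < g m :=
  (SL.le hg hf).not.congr fun _ => not_le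

theorem Gr.ite {P : M → Prop} [DecidablePred P] {f g : M → V} (h : SL P) (hf : Gr f)
    (hg : Gr g) : Gr fun m => if P m then f m else g m := by
  have h1 : SL fun p : M × V => (P p.1 ∧ f p.1 = p.2) ∨ (¬P p.1 ∧ g p.1 = p.2) := by fun_prop
  exact h1.congr fun p => by by_cases hp : P p.1 <;> simp [hp]

@[fun_prop] theorem Gr.max {f g : M → ℤ} (hf : Gr f) (hg : Gr g) :
    Gr fun m => max (f m) (g m) := by
  simpa only [max_def] using Gr.ite (SL.le hf hg) hg hf

@[fun_prop] theorem Gr.min {f g : M → ℤ} (hf : Gr f) (hg : Gr g) :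
    Gr fun m => min (f m) (g m) := by
  simpa only [min_def] using Gr.ite (SL.le hf hg) hf hg

@[fun_prop] theorem Gr.abs {f : M → ℤ} (hf : Gr f) : Gr fun m => |f m| := by
  simpa only [abs_eq_max_neg] using hf.max hf.neg

@[fun_prop] theorem Gr.half {f : M → ℤ} (hf : Gr f) : Gr fun m => f m / 2 := by
  have h1 : SL fun p : M × ℤ => 2 * p.2 ≤ f p.1 ∧ f p.1 < 2 * p.2 + 2 := by fun_prop
  exact h1.congr fun p => by beta_reduce; omega

end

section
variable {M N W : Type} [AddCommMonoid M] [AddCommMonoid N] [AddCommGroup W]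

/-- fibre counts of semilinear sets -/
def C0 (g : M → ℚ) : Prop :=
  ∃ (V : Type) (_ : AddCommGroup V) (_ : AddMonoid.FG V) (S : M × V → Prop), SL S ∧
    (∀ m, {v | S (m, v)}.Finite) ∧ ∀ m, g m = ({v | S (m, v)}.ncard : ℚ)

/-- linear combinations of fibre counts -/
@[fun_prop] def CC (g : M → ℚ) : Prop := g ∈ Submodule.span ℚ {g : M → ℚ | C0 g}

theorem CC.induct {p : (M → ℚ) → Prop} (h0 : p 0) (h1 : ∀ g, C0 g → p g)
    (h2 : ∀ g g', p g → p g' → p (g + g')) (h3 : ∀ (c : ℚ) g, p g → p (c • g)) {g : M → ℚ}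
    (h : CC g) : p g := by
  induction h using Submodule.span_induction with
  | mem g hg => exact h1 g hg
  | zero => exact h0
  | add a b _ _ ha hb => exact h2 a b ha hb
  | smul c a _ ha => exact h3 c a ha

theorem C0.cc {g : M → ℚ} (h : C0 g) : CC g := Submodule.subset_span h

theorem CC.congr {f g : M → ℚ} (h : CC f) (e : ∀ m, f m = g m) : CC g := by
  rwa [← funext e]

@[fun_prop] theorem CC.add {f g : M → ℚ} (hf : CC f) (hg : CC g) : CC fun m => f m + g m :=
  Submodule.add_mem _ hf hg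

@[fun_prop] theorem CC.sub {f g : M → ℚ} (hf : CC f) (hg : CC g) : CC fun m => f m - g m :=
  Submodule.sub_mem _ hf hg

theorem CC.smul (c : ℚ) {f : M → ℚ} (hf : CC f) : CC fun m => c * f m :=
  Submodule.smul_mem _ c hf

theorem CC.zero : CC fun _ : M => (0 : ℚ) := Submodule.zero_mem _

theorem CC.rt {g : ℕ → ℚ} (h : CC g) : Rt (PowerSeries.mk g) := by
  refine h.induct (p := fun g => Rt (PowerSeries.mk g)) (Rt.of_eventually _ 0 fun _ _ => rfl)
    ?_ (fun g g' h h' => ?_) fun c g h => ?_
  · rintro g ⟨V, _, _, S, hS, hF, e⟩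
    have e1 : ∀ n, {x ∈ {x | S x} | AddMonoidHom.fst ℕ V x = n} =
        (fun v => (n, v)) '' {v | S (n, v)} := fun n => by
      ext ⟨k, v⟩
      constructor
      · rintro ⟨h1, rfl⟩
        exact ⟨v, h1, rfl⟩
      · rintro ⟨v', h1, h2⟩
        obtain ⟨rfl, rfl⟩ := Prod.mk.inj h2
        exact ⟨h1, rfl⟩
    have := rt_semilinear (AddMonoidHom.fst ℕ V) hS fun n => by
      rw [e1]; exact (hF n).image _
    convert this using 1
    ext n
    rw [cnt, PowerSeries.coeff_mk, PowerSeries.coeff_mk, e1, e n,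
      Set.ncard_image_of_injective _ (Prod.mk_right_injective n)]
  · convert h.add h' using 1
    ext n
    simp
  · convert h.smul c using 1
    ext n
    simp

variable [AddMonoid.FG M] [AddMonoid.FG N] [AddMonoid.FG W]

@[fun_prop] theorem CC.comp {g : N → ℚ} {f : M → N} (h : CC g) (hf : Gr f) :
    CC fun m => g (f m) := by
  refine h.induct (p := fun g => CC fun m => g (f m)) CC.zero ?_ (fun g g' h h' => h.add h')
    fun c g h => h.smul c
  rintro g ⟨V, _, _, S, hS, hF, e⟩
  exact C0.cc ⟨V, inferInstance, inferInstance, fun p => S (f p.1, p.2), by fun_prop,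
    fun m => hF (f m), fun m => e (f m)⟩

@[fun_prop] theorem CC.mul {f g : M → ℚ} (hf : CC f) (hg : CC g) : CC fun m => f m * g m := by
  refine hf.induct (p := fun f => CC fun m => f m * g m) (by simpa using CC.zero) ?_
    (fun a b h h' => (h.add h').congr fun m => by simp [add_mul])
    fun c a h => (h.smul c).congr fun m => by simp [mul_assoc]
  rintro f ⟨V, _, _, S, hS, hF, e⟩
  refine hg.induct (p := fun g => CC fun m => f m * g m) (by simpa using CC.zero) ?_
    (fun a b h h' => (h.add h').congr fun m => by simp [mul_add])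
    fun c a h => (h.smul c).congr fun m => by simp [mul_left_comm]
  rintro g ⟨V', _, _, S', hS', hF', e'⟩
  refine C0.cc ⟨V × V', inferInstance, inferInstance,
    fun p => S (p.1, p.2.1) ∧ S' (p.1, p.2.2), by fun_prop,
    fun m => (hF m).prod (hF' m), fun m => ?_⟩
  beta_reduce
  rw [e, e', ← Nat.cast_mul, ← Set.ncard_prod]
  rfl

theorem CC.ind {P : M → Prop} [DecidablePred P] (h : SL P) :
    CC fun m => if P m then 1 else 0 := by
  refine C0.cc ⟨ℤ, inferInstance, inferInstance, fun p => P p.1 ∧ p.2 = 0, by fun_prop,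
    fun m => (Set.finite_singleton 0).subset fun v hv => hv.2, fun m => ?_⟩
  by_cases hm : P m <;> simp [hm]

@[fun_prop] theorem CC.const (c : ℚ) : CC fun _ : M => c := by
  simpa using (CC.ind (SL.const (M := M) True)).smul c

theorem CC.ite {P : M → Prop} [DecidablePred P] {f g : M → ℚ} (h : SL P) (hf : CC f)
    (hg : CC g) : CC fun m => if P m then f m else g m :=
  (((CC.ind h).mul hf).add ((CC.ind h.not).mul hg)).congr fun m => by
    by_cases hm : P m <;> simp [hm]

theorem CC.prod {I : Type} (s : Finset I) {g : I → M → ℚ} (h : ∀ i, CC (g i)) :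
    CC fun m => ∏ i ∈ s, g i m := by
  classical
  induction s using Finset.induction_on with
  | empty => simpa using CC.const 1
  | insert i s hi ih => exact ((h i).mul ih).congr fun m => by rw [Finset.prod_insert hi]

@[fun_prop] theorem CC.intCast {f : M → ℤ} (hf : Gr f) : CC fun m => (f m : ℚ) := by
  have h1 : ∀ g g' : M → ℤ, Gr g → Gr g' → CC fun m => (((g' m - g m).toNat : ℕ) : ℚ) :=
    fun g g' _ _ => C0.cc ⟨ℤ, inferInstance, inferInstance,
      fun p => g p.1 ≤ p.2 ∧ p.2 < g' p.1, by fun_prop,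
      fun m => Set.finite_Ico (g m) (g' m), fun m => by
        beta_reduce
        rw [← Int.card_Ico, ← Set.ncard_coe_finset, Finset.coe_Ico]; rfl⟩
  refine ((h1 (fun _ => 0) f (Gr.const _) hf).sub (h1 f (fun _ => 0) hf (Gr.const _))).congr
    fun m => ?_
  have : ((f m - 0).toNat : ℤ) - ((0 - f m).toNat : ℤ) = f m := by omega
  exact_mod_cast this

theorem CC.sum (F : M → Finset W) (hF : SL fun p : M × W => p.2 ∈ F p.1) {g : M × W → ℚ}
    (h : CC g) : CC fun m => ∑ w ∈ F m, g (m, w) := by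
  classical
  refine h.induct (p := fun g => CC fun m => ∑ w ∈ F m, g (m, w)) (by simpa using CC.zero) ?_
    (fun a b h h' => (h.add h').congr fun m => by simp [Finset.sum_add_distrib])
    fun c a h => (h.smul c).congr fun m => by simp [Finset.mul_sum]
  rintro g ⟨V, _, _, S, hS, hS', e⟩
  have e1 : ∀ m, {q : W × V | q.1 ∈ F m ∧ S ((m, q.1), q.2)} =
      ((F m).sigma fun w => (hS' (m, w)).toFinset).map
        (Equiv.sigmaEquivProd W V).toEmbedding := fun m => by
    ext ⟨w, v⟩
    simp
  refine C0.cc ⟨W × V, inferInstance, inferInstance,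
    fun p => p.2.1 ∈ F p.1 ∧ S ((p.1, p.2.1), p.2.2), ?_,
    fun m => by rw [e1]; exact Finset.finite_toSet _, fun m => ?_⟩
  · exact SL.and (hF.comp (f := fun p : M × W × V => (p.1, p.2.1)) (by fun_prop)) (by fun_prop)
  · rw [e1, Set.ncard_coe_finset, Finset.card_map, Finset.card_sigma, Nat.cast_sum]
    exact Finset.sum_congr rfl fun w _ => by rw [e, Set.ncard_eq_toFinset_card _ (hS' _)]

end

end Pool.Agent.P.MP_a0f0ad_al
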