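import Pool.Agent.P.MP_a0f0ad_al.Model

/-! Counting products of `n` letters in the model groups. -/

set_option autoImplicit false

namespace Pool.Agent.P.MP_a0f0ad_al
open Finset Pointwise

def prof (l u c : ℤ) : ℤ := max (c - u) 0 + min (c - l) 0

noncomputable def Js (l u e : ℤ) : Finset ℤ :=
  if e = 0 then Icc l u else if 0 < e then {u + e} else {l + e}

theorem mem_Js {l u e c : ℤ} (h : l ≤ u) : c ∈ Js l u e ↔ prof l u c = e := by
  unfold Js prof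
  split_ifs <;> simp only [mem_Icc, mem_singleton] <;> omega

theorem card_Js {l u : ℤ} (h : l ≤ u) (e : ℤ) :
    ((Js l u e).card : ℚ) = if e = 0 then (u : ℚ) - l + 1 else 1 := by
  unfold Js
  split_ifs
  · have : ((Icc l u).card : ℤ) = u - l + 1 := by rw [Int.card_Icc]; omega
    exact_mod_cast this
  · simp
  · simp

def lo (d L x A a : ℤ) : ℤ := d * tri x - d * mm L x A (x - a)

def hi (d L x A a : ℤ) : ℤ := d * mm L x A a

def Inn (d D n L x A z a e : ℤ) : Prop :=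
  -(d * df L x A z (x - a) + D * n) ≤ e ∧ e ≤ d * df L x A z a + D * n

theorem Val.self {L x A z : ℤ} (h : Val L x A z) : Val L x A A := by
  unfold Val at h ⊢
  omega

theorem abs_flip (a x : ℤ) : |2 * (x - a) - x| = |2 * a - x| := by
  rw [← abs_neg]
  congr 1
  ring

theorem lo_le_hi {d L x A a : ℤ} (hd : 0 ≤ d) (hv : Val L x A A)
    (ha : |2 * a - x| ≤ 2 * L - |x|) : lo d L x A a ≤ hi d L x A a := by
  have := mul_le_mul_of_nonneg_left (tri_le hv ha) hd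
  rw [lo, hi]
  linarith

theorem df_mul {d D L x A z a : ℤ} (hd : 0 ≤ d) (hD : d ≤ D) (hv : Val L x A z)
    (ha : |2 * a - x| ≤ 2 * L - |x|) : |d * df L x A z a| ≤ D * (2 * L - |x|) := by
  have h1 : |df L x A z a| ≤ 2 * L - |x| := by
    have := df_bound hv ha
    unfold Val at hv
    simp only [abs_eq_max_neg]
    omega
  rw [abs_mul, abs_of_nonneg hd]
  exact mul_le_mul hD h1 (abs_nonneg _) (hd.trans hD)

theorem cd_iff {d D n L x A z a c : ℤ} (hd : 0 ≤ d) (hD : d ≤ D) (hv : Val L x A z)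
    (hn : 2 * L - |x| = n) (ha : |2 * a - x| ≤ n) :
    Cd d D n L x A z a c ↔ Inn d D n L x A z a (prof (lo d L x A a) (hi d L x A a) c) := by
  subst hn
  have ha' := (abs_flip a x).trans_le ha
  have h1 := abs_le.1 (df_mul hd hD hv ha)
  have h2 := abs_le.1 (df_mul hd hD hv ha')
  have h3 := lo_le_hi hd hv.self ha
  rw [Cd, up_iff hd hv ha, up_iff hd hv ha', Inn, prof, and_iff_right ha]
  rw [lo, hi] at h3 ⊢
  omega

theorem inn_self {d D n L x A a e : ℤ} (hv : Val L x A A) (hn : 2 * L - |x| = n)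
    (ha : |2 * a - x| ≤ n) : Inn d D n L x A A a e ↔ |e| ≤ D * n := by
  subst hn
  rw [Inn, df_self hv ha, df_self hv ((abs_flip a x).trans_le ha), abs_le]
  simp

variable {I R : Type} (d : I → ℤ) (D : ℤ)

def WW (n L x A : ℤ) (a c : I → ℤ) : Prop :=
  ∃ z, Val L x A z ∧ ∀ i, Cd (d i) D n L x A z (a i) (c i)

def QQ (n L x A : ℤ) (a c : I → ℤ) : Prop :=
  WW d D n L x A a c ∧ (max x 0 = A + L ∨ ¬∀ i, Cd (d i) D n L x A A (a i) (c i))

variable {d D}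

theorem up_chain {d γ L x A z A' z' a : ℤ} (hd : 0 ≤ d) (hv : Val L x A z) (hv' : Val L x A' z')
    (h : Up d γ L x A z a) (h' : Up d γ L x A' z' a) (hA : A < A') : Up d γ L x A' A' a := by
  rcases up_micro hd hv' h' with h1 | h1
  · exact h1
  rcases up_micro hd hv h with h2 | h2
  · exact up_macro hd hA.le (by omega) h2 h1
  · exact up_macro hd (by omega) (by omega) h2 h1

theorem QQ.uniq (hd : ∀ i, 0 ≤ d i) {n L x A A' : ℤ} {a c : I → ℤ} (h : QQ d D n L x A a c)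
    (h' : QQ d D n L x A' a c) : A = A' := by
  have key : ∀ A A', QQ d D n L x A a c → QQ d D n L x A' a c → ¬A < A' := by
    rintro A A' ⟨⟨z, hv, hc⟩, -⟩ ⟨⟨z', hv', hc'⟩, h1⟩ hA
    rcases h1 with h1 | h1
    · unfold Val at hv
      omega
    · exact h1 fun i => ⟨(hc i).1, up_chain (hd i) hv hv' (hc i).2.1 (hc' i).2.1 hA,
        up_chain (hd i) hv hv' (hc i).2.2 (hc' i).2.2 hA⟩
  have h1 := key A A' h h'
  have h2 := key A' A h' h
  omega

theorem WW.exists {n L x A : ℤ} {a c : I → ℤ} (h : WW d D n L x A a c) :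
    ∃ A', QQ d D n L x A' a c := by
  classical
  obtain ⟨B, hB, hm⟩ := Int.exists_least_of_bdd (P := fun A => WW d D n L x A a c)
    ⟨max x 0 - L, fun A ⟨z, hv, _⟩ => by unfold Val at hv; omega⟩ ⟨A, h⟩
  refine ⟨B, hB, ?_⟩
  by_contra hc
  simp only [not_or, not_not] at hc
  obtain ⟨z, hv, -⟩ := hB
  have : WW d D n L x (B - 1) a c := by
    refine ⟨B - 1 + L, by unfold Val at hv ⊢; omega, fun i => ?_⟩
    have := hc.2 i
    simp only [Cd, Up, ← gg_end, sub_add_cancel] at this ⊢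
    exact this
  have := hm _ this
  omega

variable (d D)

/-- the parameters: `x, L, A, a, e` -/
abbrev Par (I : Type) := ℤ × ℤ × ℤ × (I → ℤ) × (I → ℤ)

def PP (n : ℤ) (w : Par I) : Prop :=
  2 * w.2.1 - |w.1| = n ∧ (∀ i, |2 * w.2.2.2.1 i - w.1| ≤ n) ∧
    (∃ z, Val w.2.1 w.1 w.2.2.1 z ∧
      ∀ i, Inn (d i) D n w.2.1 w.1 w.2.2.1 z (w.2.2.2.1 i) (w.2.2.2.2 i)) ∧
    (max w.1 0 = w.2.2.1 + w.2.1 ∨ ¬∀ i, |w.2.2.2.2 i| ≤ D * n)

variable {d D}

theorem pp_iff (hd : ∀ i, 0 ≤ d i ∧ d i ≤ D) {n L x A : ℤ} {a c : I → ℤ} (hn : 2 * L - |x| = n) :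
    QQ d D n L x A a c ↔
      PP d D n (x, L, A, a, fun i => prof (lo (d i) L x A (a i)) (hi (d i) L x A (a i)) (c i)) := by
  constructor
  · rintro ⟨⟨z, hv, hc⟩, h1⟩
    refine ⟨hn, fun i => (hc i).1, ⟨z, hv, fun i =>
      (cd_iff (hd i).1 (hd i).2 hv hn (hc i).1).1 (hc i)⟩, h1.imp_right fun h2 h3 => h2 fun i => ?_⟩
    exact (cd_iff (hd i).1 (hd i).2 hv.self hn (hc i).1).2
      ((inn_self hv.self hn (hc i).1).2 (h3 i))
  · rintro ⟨-, ha, ⟨z, hv, hc⟩, h1⟩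
    refine ⟨⟨z, hv, fun i => (cd_iff (hd i).1 (hd i).2 hv hn (ha i)).2 (hc i)⟩,
      h1.imp_right fun h2 h3 => h2 fun i => ?_⟩
    exact (inn_self hv.self hn (ha i)).1 ((cd_iff (hd i).1 (hd i).2 hv.self hn (ha i)).1 (h3 i))

theorem pp_finite [Finite I] (hd : ∀ i, 0 ≤ d i ∧ d i ≤ D) (n : ℤ) : {w | PP d D n w}.Finite := by
  have h1 : ∀ k : ℤ, (Set.univ.pi fun _ : I => Set.Icc (-k) k).Finite := fun k =>
    Set.Finite.pi fun _ => Set.finite_Icc _ _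
  refine ((Set.finite_Icc (-n) n).prod ((Set.finite_Icc (-n) n).prod
    ((Set.finite_Icc (-n) n).prod ((h1 n).prod (h1 (2 * (D * n))))))).subset ?_
  rintro ⟨x, L, A, a, e⟩ ⟨hn, ha, ⟨z, hv, hc⟩, -⟩
  simp only at hn ha hv hc
  have hv' := hv
  unfold Val at hv'
  have hn' := hn
  rw [abs_eq_max_neg] at hn'
  refine ⟨⟨?_, ?_⟩, ⟨?_, ?_⟩, ⟨?_, ?_⟩, fun i _ => ?_, fun i _ => ?_⟩
  any_goals (simp only; omega)
  · have := abs_le.1 (ha i)
    exact ⟨by simp only; omega, by simp only; omega⟩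
  · subst hn
    have h1 := abs_le.1 (df_mul (hd i).1 (hd i).2 hv (ha i))
    have h2 := abs_le.1 (df_mul (hd i).1 (hd i).2 hv ((abs_flip _ _).trans_le (ha i)))
    have := hc i
    rw [Inn] at this
    exact ⟨by simp only; omega, by simp only; omega⟩

variable [Fintype I] [Fintype R]

theorem pp_sl : SL fun p : ℕ × Par I => PP d D p.1 p.2 := by
  unfold PP Inn
  refine SL.and (by fun_prop) (SL.and (SL.all fun i => by fun_prop) (SL.and (SL.ex
    (SL.and (by fun_prop) (SL.all fun i => by fun_prop)))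
      (SL.or (by fun_prop) (SL.not (SL.all fun i => by fun_prop)))))

open Classical in
theorem ncard_mem (hd : ∀ i, 0 ≤ d i ∧ d i ≤ D) (n : ℕ) :
    (({g : Mo d R | Mem D n g}.ncard : ℕ) : ℚ) = ∑ w ∈ (pp_finite hd n).toFinset,
      (∏ i, if w.2.2.2.2 i = 0 then (hi (d i) w.2.1 w.1 w.2.2.1 (w.2.2.2.1 i) : ℚ) -
        lo (d i) w.2.1 w.1 w.2.2.1 (w.2.2.2.1 i) + 1 else 1) * ∏ _j : R, (2 * ((n : ℤ) : ℚ) + 1) := by
  set T := (pp_finite hd n).toFinset.sigma fun w : Par I =>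
    Fintype.piFinset (fun i => Js (lo (d i) w.2.1 w.1 w.2.2.1 (w.2.2.2.1 i))
      (hi (d i) w.2.1 w.1 w.2.2.1 (w.2.2.2.1 i)) (w.2.2.2.2 i)) ×ˢ
      Fintype.piFinset fun _ : R => Icc (-(n : ℤ)) n with hT
  have hlo : ∀ w : Par I, PP d D n w → ∀ i, lo (d i) w.2.1 w.1 w.2.2.1 (w.2.2.2.1 i) ≤
      hi (d i) w.2.1 w.1 w.2.2.1 (w.2.2.2.1 i) := fun w ⟨hn, ha, ⟨_, hv, _⟩, _⟩ i =>
    lo_le_hi (hd i).1 hv.self (by rw [hn]; exact ha i)
  have hm : ∀ (x L A : ℤ) (a e c : I → ℤ) (r : R → ℤ),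
      (⟨(x, L, A, a, e), c, r⟩ : Σ _ : Par I, (I → ℤ) × (R → ℤ)) ∈ T ↔
      2 * L - |x| = n ∧ QQ d D n L x A a c ∧ (∀ j, |r j| ≤ n) ∧
        (fun i => prof (lo (d i) L x A (a i)) (hi (d i) L x A (a i)) (c i)) = e := by
    intro x L A a e c r
    simp only [hT, mem_sigma, Set.Finite.mem_toFinset, Set.mem_ofPred_eq, mem_product,
      Fintype.mem_piFinset, mem_Icc, ← abs_le]
    constructor
    · rintro ⟨h1, h2, h3⟩
      have h4 := funext fun i => (mem_Js (hlo _ h1 i)).1 (h2 i)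
      simp only at h4
      exact ⟨h1.1, (pp_iff hd h1.1).2 (by rw [h4]; exact h1), h3, h4⟩
    · rintro ⟨h1, h2, h3, rfl⟩
      have h4 := (pp_iff hd h1).1 h2
      exact ⟨h4, fun i => (mem_Js (hlo _ h4 i)).2 rfl, h3⟩
  have e1 : {g : Mo d R | Mem D n g} =
      (fun q : Σ _ : Par I, (I → ℤ) × (R → ℤ) =>
        (⟨q.1.1, q.1.2.2.2.1, q.2.1, q.2.2⟩ : Mo d R)) '' T := by
    ext g
    constructor
    · rintro ⟨L, A, z, h1, h2, h3, h4⟩
      obtain ⟨A', h5⟩ := WW.exists ⟨z, h2, h3⟩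
      exact ⟨⟨(g.h, L, A', g.a, _), g.c, g.r⟩, (hm ..).2 ⟨h1, h5, h4, rfl⟩, rfl⟩
    · rintro ⟨⟨⟨x, L, A, a, e⟩, c, r⟩, h, rfl⟩
      obtain ⟨h1, ⟨⟨z, h2, h3⟩, -⟩, h4, -⟩ := (hm ..).1 h
      exact ⟨L, A, z, h1, h2, h3, h4⟩
  rw [e1, Set.InjOn.ncard_image, Set.ncard_coe_finset, hT, card_sigma, Nat.cast_sum]
  · refine sum_congr rfl fun w hw => ?_
    rw [card_product, Fintype.card_piFinset, Fintype.card_piFinset, Nat.cast_mul, Nat.cast_prod,
      Nat.cast_prod]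
    congr 1
    · exact prod_congr rfl fun i _ => card_Js (hlo w (by simpa using hw) i) _
    · refine prod_congr rfl fun j _ => ?_
      have : ((Icc (-(n : ℤ)) n).card : ℤ) = 2 * n + 1 := by rw [Int.card_Icc]; omega
      exact_mod_cast this
  · rintro ⟨⟨x, L, A, a, e⟩, c, r⟩ h ⟨⟨x', L', A', a', e'⟩, c', r'⟩ h' he
    obtain ⟨rfl, rfl, rfl, rfl⟩ : x = x' ∧ a = a' ∧ c = c' ∧ r = r' := by simpa using he
    obtain ⟨h1, h2, -, rfl⟩ := (hm ..).1 h
    obtain ⟨h1', h2', -, rfl⟩ := (hm ..).1 h'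
    obtain rfl : L = L' := by omega
    obtain rfl := h2.uniq (fun i => (hd i).1) h2'
    rfl

theorem rt_mem (hd : ∀ i, 0 ≤ d i ∧ d i ≤ D) :
    Rt (PowerSeries.mk fun n : ℕ => (({g : Mo d R | Mem D n g}.ncard : ℕ) : ℚ)) := by
  classical
  refine CC.rt (CC.congr (CC.sum (fun n : ℕ => (pp_finite hd n).toFinset)
    ((pp_sl (d := d) (D := D)).congr fun p => by simp) (g := fun p : ℕ × Par I =>
      (∏ i, if p.2.2.2.2.2 i = 0 then (hi (d i) p.2.2.1 p.2.1 p.2.2.2.1 (p.2.2.2.2.1 i) : ℚ) -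
        lo (d i) p.2.2.1 p.2.1 p.2.2.2.1 (p.2.2.2.2.1 i) + 1 else 1) *
          ∏ _j : R, (2 * ((p.1 : ℤ) : ℚ) + 1)) ?_) fun n => (ncard_mem hd n).symm)
  refine CC.mul (CC.prod _ fun i => CC.ite (by fun_prop) ?_ (CC.const 1))
    (CC.prod _ fun j => by fun_prop)
  have h1 := CC.mm (M := ℕ × Par I) (L := fun p => p.2.2.1) (x := fun p => p.2.1)
    (A := fun p => p.2.2.2.1) (a := fun p => p.2.2.2.2.1 i) (by fun_prop) (by fun_prop)
    (by fun_prop) (by fun_prop)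
  have h2 := CC.mm (M := ℕ × Par I) (L := fun p => p.2.2.1) (x := fun p => p.2.1)
    (A := fun p => p.2.2.2.1) (a := fun p => p.2.1 - p.2.2.2.2.1 i) (by fun_prop) (by fun_prop)
    (by fun_prop) (by fun_prop)
  have h3 := CC.tri (M := ℕ × Par I) (f := fun p => p.2.1) (by fun_prop)
  refine (((h1.smul (d i)).sub ((h3.smul (d i)).sub (h2.smul (d i)))).add (CC.const 1)).congr
    fun p => ?_
  simp [lo, hi]

end Pool.Agent.P.MP_a0f0ad_al
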