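import Pool.Agent.P.MP_a0f0ad_al.Cnt

/-! The dual functions describing the balls, and their convexity properties. -/

set_option autoImplicit false

namespace Pool.Agent.P.MP_a0f0ad_al

def tri (u : ℤ) : ℤ := u * (u - 1) / 2

theorem two_tri (u : ℤ) : 2 * tri u = u * (u - 1) :=
  Int.mul_ediv_cancel' (Int.even_mul_pred_self u).two_dvd

theorem tri_succ (u : ℤ) : tri (u + 1) = tri u + u := by
  have h1 := two_tri u
  have h2 := two_tri (u + 1)
  nlinarith

theorem tri_zero : tri 0 = 0 := rfl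

theorem tri_sub (x α : ℤ) : tri (x - α) = tri x + tri (-α) - α * x := by
  have h1 := two_tri x
  have h2 := two_tri (-α)
  have h3 := two_tri (x - α)
  nlinarith

def pp (u : ℤ) : ℤ := tri (max u 0)

theorem pp_succ (u : ℤ) : pp (u + 1) = pp u + max u 0 := by
  rcases le_or_gt 0 u with h | h
  · rw [pp, pp, max_eq_left h, max_eq_left (by omega), tri_succ]
  · rw [pp, pp, max_eq_right h.le, max_eq_right (by omega), add_zero]

def qq (u : ℤ) : ℤ := 2 * pp u - tri u

theorem qq_succ (u : ℤ) : qq (u + 1) = qq u + |u| := by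
  rw [qq, qq, pp_succ, tri_succ, abs_eq_max_neg]
  omega

def kap (x α : ℤ) : ℤ := pp (max x 0 - α) - pp (min x 0 - α) - tri (max x 0) + α * max x 0

theorem kap_succ (x α : ℤ) :
    kap x (α + 1) = kap x α + max (min x 0) (min (max x 0) (α + 1)) := by
  have h1 := pp_succ (max x 0 - (α + 1))
  have h2 := pp_succ (min x 0 - (α + 1))
  rw [show max x 0 - (α + 1) + 1 = max x 0 - α by ring] at h1
  rw [show min x 0 - (α + 1) + 1 = min x 0 - α by ring] at h2
  rw [kap, kap, h1, h2, add_mul]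
  omega

theorem kap_pos {x : ℤ} (h : 0 ≤ x) (α : ℤ) :
    kap x α = pp (x - α) - pp (0 - α) - tri (x - α) + tri (0 - α) := by
  rw [kap, max_eq_left h, min_eq_right h, tri_sub x α, zero_sub]
  ring

theorem kap_neg {x : ℤ} (h : x ≤ 0) (α : ℤ) : kap x α = pp (0 - α) - pp (x - α) := by
  rw [kap, max_eq_right h, min_eq_left h, tri_zero]
  ring

theorem kap_up (x α : ℤ) :
    kap (x + 1) α = kap x α - max (x - α) 0 + if 0 ≤ x then |x - α| else 0 := by
  have h1 := pp_succ (x - α)
  have h2 := tri_succ (x - α)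
  rw [show x - α + 1 = x + 1 - α by ring] at h1 h2
  split_ifs with h
  · rw [kap_pos h, kap_pos (by omega), h1, h2, abs_eq_max_neg]
    omega
  · rw [kap_neg (by omega), kap_neg (by omega : x ≤ 0), h1]
    omega

theorem kap_dn (x α : ℤ) :
    kap (x - 1) α = kap x α - max (α - (x - 1)) 0 + if x ≤ 0 then |x - 1 - α| else 0 := by
  have h1 := kap_up (x - 1) α
  rw [sub_add_cancel] at h1
  rw [h1, abs_eq_max_neg]
  split_ifs <;> omega

def Phi (L A z α : ℤ) : ℤ := qq (A + L - α) - qq (A - α) - |A - α| + |z - α|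

/-- admissible configurations -/
def Val (L x A z : ℤ) : Prop :=
  A ≤ min x 0 ∧ max x 0 ≤ A + L ∧ A ≤ z ∧ z ≤ A + L ∧ (¬A = min x 0 ∨ z = A)

theorem Phi_left (L A z α : ℤ) :
    Phi (L + 1) (A - 1) z α = qq (A + L - α) - qq (A - α) + |z - α| := by
  have h := qq_succ (A - 1 - α)
  rw [show A - 1 - α + 1 = A - α by ring] at h
  rw [Phi, show A - 1 + (L + 1) - α = A + L - α by ring, h]
  ring

theorem Phi_right (L A z α : ℤ) :
    Phi (L + 1) A z α = qq (A + L - α) - qq (A - α) + |A + L - α| - |A - α| + |z - α| := by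
  rw [Phi, show A + (L + 1) - α = A + L - α + 1 by ring, qq_succ]
  ring

theorem Phi_end (L A α : ℤ) : Phi L (A + 1) (A + 1) α = Phi L A (A + L) α := by
  rw [Phi, Phi, show A + 1 + L - α = A + L - α + 1 by ring, show A + 1 - α = A - α + 1 by ring,
    qq_succ, qq_succ]
  ring

theorem step_up {L x A z : ℤ} (h : Val L x A z) : ∃ L' A' z', 2 * L' - |x + 1| = 2 * L - |x| + 1 ∧
    Val L' (x + 1) A' z' ∧
    ∀ α, Phi L A z α - kap x α + max (x - α) 0 ≤ Phi L' A' z' α - kap (x + 1) α := by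
  unfold Val at h ⊢
  simp only [kap_up, abs_eq_max_neg (a := x), abs_eq_max_neg (a := x + 1)]
  by_cases hx : 0 ≤ x
  · simp only [if_pos hx]
    by_cases h1 : A + L ≤ x + z - A
    · refine ⟨L + 1, A, x + z - (A + L), by omega, by omega, fun α => ?_⟩
      rw [Phi_right]
      simp only [Phi, abs_eq_max_neg]
      omega
    · refine ⟨L + 1, A - 1, x + z - A, by omega, by omega, fun α => ?_⟩
      rw [Phi_left]
      simp only [Phi, abs_eq_max_neg]
      omega
  · simp only [if_neg hx]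
    exact ⟨L, A, z, by omega, by omega, fun α => by omega⟩

theorem step_dn {L x A z : ℤ} (h : Val L x A z) : ∃ L' A' z', 2 * L' - |x - 1| = 2 * L - |x| + 1 ∧
    Val L' (x - 1) A' z' ∧
    ∀ α, Phi L A z α - kap x α + max (α - (x - 1)) 0 ≤ Phi L' A' z' α - kap (x - 1) α := by
  unfold Val at h ⊢
  simp only [kap_dn, abs_eq_max_neg (a := x), abs_eq_max_neg (a := x - 1)]
  by_cases hx : x ≤ 0
  · simp only [if_pos hx]
    by_cases h1 : A + L < x - 1 + z - A
    · refine ⟨L + 1, A, x - 1 + z - (A + L), by omega, by omega, fun α => ?_⟩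
      rw [Phi_right]
      simp only [Phi, abs_eq_max_neg]
      omega
    · refine ⟨L + 1, A - 1, x - 1 + z - A, by omega, by omega, fun α => ?_⟩
      rw [Phi_left]
      simp only [Phi, abs_eq_max_neg]
      omega
  · simp only [if_neg hx]
    exact ⟨L, A, z, by omega, by omega, fun α => by omega⟩

theorem up_le {f s : ℤ → ℤ} (hs : ∀ α, f (α + 1) = f α + s α) {b c : ℤ} (h : b ≤ c) :
    (∀ β, b ≤ β → β < c → 0 ≤ s β) → f b ≤ f c := by
  induction c, h using Int.leInduction with
  | base => exact fun _ => le_rfl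
  | succ c hc ih =>
    intro h1
    have := ih fun β h2 h3 => h1 β h2 (by omega)
    have := h1 c hc (by omega)
    rw [hs]
    omega

theorem dn_le {f s : ℤ → ℤ} (hs : ∀ α, f (α + 1) = f α + s α) {b c : ℤ} (h : b ≤ c)
    (h1 : ∀ β, b ≤ β → β < c → s β ≤ 0) : f c ≤ f b := by
  have := up_le (f := fun α => -f α) (s := fun α => -s α) (fun α => by rw [hs]; ring) h
    fun β h2 h3 => by have := h1 β h2 h3; omega
  omega

theorem qconv {f s : ℤ → ℤ} (hs : ∀ α, f (α + 1) = f α + s α)
    (hm : ∀ α β, α ≤ β → s α ≤ s β) {a b c : ℤ} (h1 : a ≤ b) (h2 : b ≤ c) :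
    f b ≤ f a ∨ f b ≤ f c := by
  rcases le_total 0 (s b) with h | h
  · exact Or.inr (up_le hs h2 fun β h3 _ => h.trans (hm _ _ h3))
  · exact Or.inl (dn_le hs h1 fun β _ h3 => (hm _ _ h3.le).trans h)

def gg (L x A z a α : ℤ) : ℤ := α * a + (Phi L A z α - kap x α)

def sl (L x A z a α : ℤ) : ℤ :=
  a - |A + L - (α + 1)| + |A - α| + |z - (α + 1)| - |z - α| -
    max (min x 0) (min (max x 0) (α + 1))

theorem gg_succ (L x A z a α : ℤ) : gg L x A z a (α + 1) = gg L x A z a α + sl L x A z a α := by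
  have h1 := qq_succ (A + L - (α + 1))
  have h2 := qq_succ (A - (α + 1))
  rw [show A + L - (α + 1) + 1 = A + L - α by ring] at h1
  rw [show A - (α + 1) + 1 = A - α by ring] at h2
  rw [gg, gg, Phi, Phi, sl, kap_succ, h1, h2]
  ring

theorem gg_z (L x A z z' a α : ℤ) : gg L x A z a α = gg L x A z' a α + |z - α| - |z' - α| := by
  rw [gg, gg, Phi, Phi]
  ring

theorem gg_end (L x A a α : ℤ) : gg L x (A + 1) (A + 1) a α = gg L x A (A + L) a α := by
  rw [gg, gg, Phi_end]

/-- the upper condition -/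
def Up (d γ L x A z a : ℤ) : Prop := ∀ α, γ ≤ d * gg L x A z a α

theorem up_micro {d γ L x A z a : ℤ} (hd : 0 ≤ d) (hv : Val L x A z) (h : Up d γ L x A z a) :
    Up d γ L x A A a ∨ Up d γ L x (A + 1) (A + 1) a := by
  by_cases hz : z = A
  · exact Or.inl (hz ▸ h)
  by_contra hc
  simp only [Up, not_or, not_forall, not_le, gg_end] at hc
  obtain ⟨⟨α, h1⟩, β, h2⟩ := hc
  unfold Val at hv
  have key : ∀ δ u, d * u < γ → ¬gg L x A z a δ ≤ u := fun δ u hu hle =>
    absurd ((h δ).trans (mul_le_mul_of_nonneg_left hle hd)) (not_le.2 hu)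
  by_cases h3 : z ≤ α
  · refine key α _ h1 ?_
    rw [gg_z L x A z A, abs_eq_max_neg, abs_eq_max_neg]
    omega
  by_cases h4 : β ≤ z
  · refine key β _ h2 ?_
    rw [gg_z L x A z (A + L), abs_eq_max_neg, abs_eq_max_neg]
    omega
  have := qconv (f := fun δ => gg L x A z a δ - |z - δ|)
    (s := fun δ => sl L x A z a δ - |z - (δ + 1)| + |z - δ|)
    (fun δ => by rw [gg_succ]; ring) (fun δ δ' hδ => by
      simp only [sl, abs_eq_max_neg]
      omega) (not_le.1 h3).le (not_le.1 h4).le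
  simp only [sub_self, abs_zero, sub_zero] at this
  rcases this with h5 | h5
  · refine key z _ h1 ?_
    have := abs_nonneg (A - α)
    rw [gg_z L x A A z]
    omega
  · refine key z _ h2 ?_
    have := abs_nonneg (A + L - β)
    rw [gg_z L x A (A + L) z]
    omega

theorem up_macro {d γ L x A1 A2 A3 a : ℤ} (hd : 0 ≤ d) (h12 : A1 ≤ A2) (h23 : A2 ≤ A3)
    (h1 : Up d γ L x A1 A1 a) (h3 : Up d γ L x A3 A3 a) : Up d γ L x A2 A2 a := by
  intro α
  have e : ∀ A, gg L x A A a (α - A2 + A) =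
      qq (L - (α - A2)) - qq (-(α - A2)) - (kap x (α - A2 + A) - (α - A2 + A) * a) := fun A => by
    rw [gg, Phi, show A + L - (α - A2 + A) = L - (α - A2) by ring,
      show A - (α - A2 + A) = -(α - A2) by ring]
    ring
  have := qconv (f := fun A => kap x (α - A2 + A) - (α - A2 + A) * a)
    (s := fun A => max (min x 0) (min (max x 0) (α - A2 + A + 1)) - a)
    (fun A => by rw [← add_assoc, kap_succ]; ring) (fun δ δ' hδ => by omega) h12 h23
  have e2 := e A2
  rw [sub_add_cancel] at e2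
  simp only [sub_add_cancel] at this
  rcases this with h | h
  · refine (h1 (α - A2 + A1)).trans (mul_le_mul_of_nonneg_left ?_ hd)
    rw [e, e2]
    omega
  · refine (h3 (α - A2 + A3)).trans (mul_le_mul_of_nonneg_left ?_ hd)
    rw [e, e2]
    omega

/-- the reference minimiser -/
def al (L x A a : ℤ) : ℤ :=
  max A (max ((2 * A + L - a + min x 0 + 1) / 2)
    (min ((2 * A + L - a + max x 0 + 1) / 2) (2 * A + L - a))) - 1

def mm (L x A a : ℤ) : ℤ := gg L x A A a (al L x A a)

def df (L x A z a : ℤ) : ℤ :=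
  |z - al L x A a| - |A - al L x A a| + min 0 (min (sl L x A z a (al L x A a))
    (sl L x A z a (al L x A a) + sl L x A z a (al L x A a + 1)))

theorem df_le {L x A z a : ℤ} (hv : Val L x A z) (ha : |2 * a - x| ≤ 2 * L - |x|) (α : ℤ) :
    mm L x A a + df L x A z a ≤ gg L x A z a α := by
  have e0 := gg_z L x A z A a (al L x A a)
  have e1 := gg_succ L x A z a (al L x A a)
  have e2 := gg_succ L x A z a (al L x A a + 1)
  unfold Val at hv
  simp only [abs_eq_max_neg] at ha
  rw [mm, df]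
  rcases le_or_gt α (al L x A a) with h | h
  · have := dn_le (gg_succ L x A z a) h fun β _ h2 => by
      simp only [sl, al, abs_eq_max_neg] at h2 ⊢
      omega
    omega
  rcases le_or_gt (al L x A a + 1 + 1) α with h' | h'
  · have := up_le (gg_succ L x A z a) h' fun β h2 _ => by
      simp only [sl, al, abs_eq_max_neg] at h2 ⊢
      omega
    omega
  · rw [show α = al L x A a + 1 by omega]
    omega

theorem up_iff {d γ L x A z a : ℤ} (hd : 0 ≤ d) (hv : Val L x A z)
    (ha : |2 * a - x| ≤ 2 * L - |x|) :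
    Up d γ L x A z a ↔ γ ≤ d * mm L x A a + d * df L x A z a := by
  rw [← mul_add]
  refine ⟨fun h => ?_, fun h α => h.trans (mul_le_mul_of_nonneg_left (df_le hv ha α) hd)⟩
  have e0 := gg_z L x A z A a (al L x A a)
  have e1 := gg_succ L x A z a (al L x A a)
  have e2 := gg_succ L x A z a (al L x A a + 1)
  have : ∃ α, mm L x A a + df L x A z a = gg L x A z a α := by
    rw [mm, df]
    by_contra hc
    simp only [not_exists] at hc
    have c0 := hc (al L x A a)
    have c1 := hc (al L x A a + 1)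
    have c2 := hc (al L x A a + 1 + 1)
    omega
  obtain ⟨α, e⟩ := this
  rw [e]
  exact h α

theorem df_self {L x A a : ℤ} (hv : Val L x A A) (ha : |2 * a - x| ≤ 2 * L - |x|) :
    df L x A A a = 0 := by
  unfold Val at hv
  simp only [abs_eq_max_neg] at ha
  have h1 : ∀ β, al L x A a ≤ β → 0 ≤ sl L x A A a β := fun β h2 => by
    simp only [sl, al, abs_eq_max_neg] at h2 ⊢
    omega
  have h2 := h1 _ le_rfl
  have h3 := h1 (al L x A a + 1) (by omega)
  rw [df]
  omega

theorem df_bound {L x A z a : ℤ} (hv : Val L x A z) (ha : |2 * a - x| ≤ 2 * L - |x|) :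
    -L ≤ df L x A z a ∧ df L x A z a ≤ L := by
  have hA : Val L x A A := by unfold Val at hv ⊢; omega
  have h1 := (up_iff (d := 1) (γ := mm L x A a - L) zero_le_one hv ha).1 fun α => by
    have := df_le hA ha α
    rw [df_self hA ha] at this
    rw [one_mul, gg_z L x A z A, abs_eq_max_neg, abs_eq_max_neg]
    unfold Val at hv
    omega
  refine ⟨by omega, ?_⟩
  unfold Val at hv
  rw [df, abs_eq_max_neg, abs_eq_max_neg]
  omega

section
variable {M : Type} [AddCommMonoid M] [AddMonoid.FG M] {L x A z a α f : M → ℤ}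

@[fun_prop] theorem Gr.al (h1 : Gr L) (h2 : Gr x) (h3 : Gr A) (h4 : Gr a) :
    Gr fun m => al (L m) (x m) (A m) (a m) := by
  unfold MP_a0f0ad_al.al
  fun_prop

@[fun_prop] theorem Gr.sl (h1 : Gr L) (h2 : Gr x) (h3 : Gr A) (h4 : Gr z) (h5 : Gr a)
    (h6 : Gr α) : Gr fun m => sl (L m) (x m) (A m) (z m) (a m) (α m) := by
  unfold MP_a0f0ad_al.sl
  fun_prop

@[fun_prop] theorem Gr.df (h1 : Gr L) (h2 : Gr x) (h3 : Gr A) (h4 : Gr z) (h5 : Gr a) :
    Gr fun m => df (L m) (x m) (A m) (z m) (a m) := by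
  unfold MP_a0f0ad_al.df
  fun_prop

@[fun_prop] theorem SL.val (h1 : Gr L) (h2 : Gr x) (h3 : Gr A) (h4 : Gr z) :
    SL fun m => Val (L m) (x m) (A m) (z m) := by
  unfold Val
  fun_prop

theorem CC.tri (h : Gr f) : CC fun m => (tri (f m) : ℚ) := by
  have h1 : CC fun m => (1 / 2 : ℚ) * ((f m : ℚ) * ((f m : ℚ) - 1)) := by fun_prop
  refine h1.congr fun m => ?_
  have : (2 : ℚ) * (MP_a0f0ad_al.tri (f m) : ℚ) = (f m : ℚ) * ((f m : ℚ) - 1) := by
    exact_mod_cast two_tri (f m)
  linarith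

theorem CC.qq (h : Gr f) : CC fun m => (qq (f m) : ℚ) := by
  refine (((CC.tri (h.max (Gr.const 0))).smul 2).sub (CC.tri h)).congr fun m => ?_
  simp [MP_a0f0ad_al.qq, pp]

theorem CC.mm (h1 : Gr L) (h2 : Gr x) (h3 : Gr A) (h4 : Gr a) :
    CC fun m => (mm (L m) (x m) (A m) (a m) : ℚ) := by
  have h5 := Gr.al h1 h2 h3 h4
  have c1 := CC.qq ((h3.add h1).sub h5)
  have c2 := CC.qq (h3.sub h5)
  have c3 := CC.tri (((h2.max (Gr.const 0)).sub h5).max (Gr.const 0))
  have c4 := CC.tri (((h2.min (Gr.const 0)).sub h5).max (Gr.const 0))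
  have c5 := CC.tri (h2.max (Gr.const 0))
  have c6 := (CC.intCast h5).mul (CC.intCast h4)
  have c7 := (CC.intCast h5).mul (CC.intCast (h2.max (Gr.const 0)))
  refine (c6.add ((c1.sub c2).sub (((c3.sub c4).sub c5).add c7))).congr fun m => ?_
  simp [MP_a0f0ad_al.mm, gg, Phi, kap, pp]

end

end Pool.Agent.P.MP_a0f0ad_al
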