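import Pool.Agent.P.MP_a0f0ad_al.Struct

/-! Passing to the quotient by a finite normal subgroup. -/

set_option autoImplicit false

namespace Pool.Agent.P.MP_a0f0ad_al
open Pointwise commutatorElement

theorem growth_mod_finite {G : Type} [Group G] [Group.FG G] (T : Subgroup G) [T.Normal] [Finite T]
    (h2 : ∀ x y z : G, ⁅⁅x, y⁆, z⁆ ∈ T) (χ : G →* Multiplicative ℤ) (hχ : Function.Surjective χ)
    (hab : ∀ x ∈ χ.ker, ∀ y ∈ χ.ker, ⁅x, y⁆ ∈ T) :
    ∃ S : Finset G, Subgroup.closure (S : Set G) = ⊤ ∧ Rt (PowerSeries.mk fun n : ℕ =>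
      ((((({1} : Set G) ∪ (S : Set G) ∪ (S : Set G)⁻¹) ^ n).ncard : ℕ) : ℚ)) := by
  have hT : T ≤ χ.ker := fun x hx => by
    have h1 : IsOfFinOrder (χ x) :=
      (χ.comp T.subtype).isOfFinOrder (isOfFinOrder_of_finite (⟨x, hx⟩ : T))
    exact h1.eq_one'
  obtain ⟨I, R, _, _, d, π, hd, hπ, hk⟩ := model_of_class (G := G ⧸ T) (fun x y z => by
      obtain ⟨x, rfl⟩ := QuotientGroup.mk'_surjective T x
      obtain ⟨y, rfl⟩ := QuotientGroup.mk'_surjective T y
      obtain ⟨z, rfl⟩ := QuotientGroup.mk'_surjective T z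
      rw [← map_commutatorElement, ← map_commutatorElement]
      exact (QuotientGroup.eq_one_iff _).2 (h2 x y z))
    (QuotientGroup.lift T χ hT) (fun k => by
      obtain ⟨g, rfl⟩ := hχ k
      exact ⟨g, rfl⟩) fun x hx y hy => by
      obtain ⟨x, rfl⟩ := QuotientGroup.mk'_surjective T x
      obtain ⟨y, rfl⟩ := QuotientGroup.mk'_surjective T y
      rw [← map_commutatorElement]
      exact (QuotientGroup.eq_one_iff _).2 (hab x hx y hy)
  have h3 : Finite (QuotientGroup.mk' T).ker := by rwa [QuotientGroup.ker_mk']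
  have : Finite (π.comp (QuotientGroup.mk' T)).ker :=
    (Set.toFinite (π.ker : Set (G ⧸ T))).preimage' (f := QuotientGroup.mk' T) fun b _ =>
      Finite.of_equiv _
        (MonoidHom.fiberEquivKerOfSurjective (QuotientGroup.mk'_surjective T) b).symm
  exact growth_of_model hd (π.comp (QuotientGroup.mk' T))
    (hπ.comp (QuotientGroup.mk'_surjective T))

theorem growth_main {G : Type} [Group G] [Group.FG G]
    (h3 : Finite ((⊤ : Subgroup G).lowerCentralSeries 2)) (χ : G →* Multiplicative ℤ)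
    (hχ : Function.Surjective χ) (hk : Finite (⁅χ.ker, χ.ker⁆ : Subgroup G)) :
    ∃ S : Finset G, Subgroup.closure (S : Set G) = ⊤ ∧ Rt (PowerSeries.mk fun n : ℕ =>
      ((((({1} : Set G) ∪ (S : Set G) ∪ (S : Set G)⁻¹) ^ n).ncard : ℕ) : ℚ)) := by
  have : Finite ↥((⊤ : Subgroup G).lowerCentralSeries 2 ⊔ ⁅χ.ker, χ.ker⁆) := by
    have h := (Set.toFinite (((⊤ : Subgroup G).lowerCentralSeries 2 : Subgroup G) : Set G)).mul
      (Set.toFinite ((⁅χ.ker, χ.ker⁆ : Subgroup G) : Set G))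
    rw [← Subgroup.mul_normal] at h
    exact h
  refine growth_mod_finite ((⊤ : Subgroup G).lowerCentralSeries 2 ⊔ ⁅χ.ker, χ.ker⁆)
    (fun x y z => Subgroup.mem_sup_left ?_) χ hχ fun x hx y hy =>
      Subgroup.mem_sup_right (Subgroup.commutator_mem_commutator hx hy)
  exact Subgroup.commutator_mem_commutator
    (Subgroup.commutator_mem_commutator (Subgroup.mem_top x) (Subgroup.mem_top y))
    (Subgroup.mem_top z)

end Pool.Agent.P.MP_a0f0ad_al
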