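import Pool.Agent.P.MP_a0f0ad_al.Walk

/-! The model groups and the description of products of `n` letters. -/

set_option autoImplicit false

namespace Pool.Agent.P.MP_a0f0ad_al
open Finset Pointwise

/-- the model group -/
@[ext] structure Mo {I : Type} (d : I → ℤ) (R : Type) where
  h : ℤ
  a : I → ℤ
  c : I → ℤ
  r : R → ℤ

variable {I R : Type} {d : I → ℤ}

instance : Mul (Mo d R) :=
  ⟨fun g u => ⟨g.h + u.h, g.a + u.a, fun i => g.c i + u.c i + d i * g.h * u.a i, g.r + u.r⟩⟩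

instance : One (Mo d R) := ⟨⟨0, 0, 0, 0⟩⟩

instance : Inv (Mo d R) := ⟨fun g => ⟨-g.h, -g.a, fun i => -g.c i + d i * g.h * g.a i, -g.r⟩⟩

@[simp] theorem Mo.mul_h (g u : Mo d R) : (g * u).h = g.h + u.h := rfl
@[simp] theorem Mo.mul_a (g u : Mo d R) (i : I) : (g * u).a i = g.a i + u.a i := rfl
@[simp] theorem Mo.mul_c (g u : Mo d R) (i : I) :
    (g * u).c i = g.c i + u.c i + d i * g.h * u.a i := rfl
@[simp] theorem Mo.mul_r (g u : Mo d R) (j : R) : (g * u).r j = g.r j + u.r j := rfl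
@[simp] theorem Mo.one_h : (1 : Mo d R).h = 0 := rfl
@[simp] theorem Mo.one_a (i : I) : (1 : Mo d R).a i = 0 := rfl
@[simp] theorem Mo.one_c (i : I) : (1 : Mo d R).c i = 0 := rfl
@[simp] theorem Mo.one_r (j : R) : (1 : Mo d R).r j = 0 := rfl
@[simp] theorem Mo.inv_h (g : Mo d R) : g⁻¹.h = -g.h := rfl
@[simp] theorem Mo.inv_a (g : Mo d R) (i : I) : g⁻¹.a i = -g.a i := rfl
@[simp] theorem Mo.inv_c (g : Mo d R) (i : I) : g⁻¹.c i = -g.c i + d i * g.h * g.a i := rfl
@[simp] theorem Mo.inv_r (g : Mo d R) (j : R) : g⁻¹.r j = -g.r j := rfl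

instance : Group (Mo d R) :=
  Group.ofLeftAxioms (fun a b c => by ext <;> simp <;> ring) (fun a => by ext <;> simp)
    fun a => by ext <;> simp

/-- the generators -/
def SS (d : I → ℤ) (R : Type) (D : ℤ) : Set (Mo d R) :=
  {g | g.h = 1 ∧ (∀ i, g.a i = 0 ∨ g.a i = 1) ∧ (∀ i, |g.c i| ≤ D) ∧ ∀ j, |g.r j| ≤ 1}

def Cd (d D n L x A z a c : ℤ) : Prop :=
  |2 * a - x| ≤ n ∧ Up d (c - D * n) L x A z a ∧ Up d (d * tri x - c - D * n) L x A z (x - a)

def Mem (D n : ℤ) (g : Mo d R) : Prop :=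
  ∃ L A z, 2 * L - |g.h| = n ∧ Val L g.h A z ∧
    (∀ i, Cd (d i) D n L g.h A z (g.a i) (g.c i)) ∧ ∀ j, |g.r j| ≤ n

theorem up_step {d γ γ' L x A z a L' x' A' z' ε y σ : ℤ} (hd : 0 ≤ d) (h : Up d γ L x A z a)
    (hε : ε = 0 ∨ ε = σ) (hγ : γ' ≤ γ + d * (ε * y))
    (hG : ∀ α, Phi L A z α - kap x α + max (σ * (y - α)) 0 ≤ Phi L' A' z' α - kap x' α) :
    Up d γ' L' x' A' z' (a + ε) := by
  intro α
  have h1 := h α
  have h2 : gg L x A z a α + ε * y ≤ gg L' x' A' z' (a + ε) α := by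
    have h3 := hG α
    have h4 := le_max_left (σ * (y - α)) 0
    have h5 := le_max_right (σ * (y - α)) 0
    rw [gg, gg]
    rcases hε with rfl | rfl <;> linarith
  have h3 := mul_le_mul_of_nonneg_left h2 hd
  linarith

theorem mem_step {D n : ℤ} (hd : ∀ i, 0 ≤ d i) {g u : Mo d R} (hg : Mem D n g)
    (hu : u ∈ SS d R D ∪ (SS d R D)⁻¹) : Mem D (n + 1) (g * u) := by
  obtain ⟨L, A, z, e, hv, hc, hr⟩ := hg
  rcases hu with hu | hu
  · obtain ⟨u1, u2, u3, u4⟩ := hu
    obtain ⟨L', A', z', e', hv', hG⟩ := step_up hv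
    refine ⟨L', A', z', by rw [Mo.mul_h, u1]; omega, by rw [Mo.mul_h, u1]; exact hv',
      fun i => ?_, fun j => ?_⟩
    · obtain ⟨c1, c2, c3⟩ := hc i
      have := abs_le.1 (u3 i)
      rw [Mo.mul_h, u1, Mo.mul_a, Mo.mul_c]
      refine ⟨?_, up_step (σ := 1) (y := g.h) (hd i) c2 (u2 i) (by linarith)
        (by simpa using hG), ?_⟩
      · rw [abs_le] at c1 ⊢
        rcases u2 i with h | h <;> omega
      · rw [show g.h + 1 - (g.a i + u.a i) = g.h - g.a i + (1 - u.a i) by ring, tri_succ]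
        exact up_step (σ := 1) (y := g.h) (hd i) c3 (by rcases u2 i with h | h <;> omega)
          (by linarith) (by simpa using hG)
    · have h1 := abs_le.1 (hr j)
      have h2 := abs_le.1 (u4 j)
      rw [Mo.mul_r, abs_le]
      omega
  · obtain ⟨u1, u2, u3, u4⟩ := Set.mem_inv.1 hu
    simp only [Mo.inv_h, Mo.inv_a, Mo.inv_c, Mo.inv_r, abs_neg] at u1 u2 u3 u4
    have u0 : u.h = -1 := by omega
    obtain ⟨L', A', z', e', hv', hG⟩ := step_dn hv
    have hG' : ∀ α, Phi L A z α - kap g.h α + max (-1 * (g.h - 1 - α)) 0 ≤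
        Phi L' A' z' α - kap (g.h - 1) α := fun α => by
      rw [show -1 * (g.h - 1 - α) = α - (g.h - 1) by ring]
      exact hG α
    have e0 : (g * u).h = g.h - 1 := by rw [Mo.mul_h, u0]; ring
    refine ⟨L', A', z', by rw [e0]; omega, by rw [e0]; exact hv', fun i => ?_, fun j => ?_⟩
    · obtain ⟨c1, c2, c3⟩ := hc i
      have := abs_le.1 (u3 i)
      rw [u0] at this
      rw [e0, Mo.mul_a, Mo.mul_c]
      refine ⟨?_, up_step (σ := -1) (y := g.h - 1) (hd i) c2
        (by rcases u2 i with h | h <;> omega) (by linarith) hG', ?_⟩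
      · rw [abs_le] at c1 ⊢
        rcases u2 i with h | h <;> omega
      · have h1 := tri_succ (g.h - 1)
        rw [sub_add_cancel] at h1
        rw [show g.h - 1 - (g.a i + u.a i) = g.h - g.a i + (-1 - u.a i) by ring,
          show tri (g.h - 1) = tri g.h - (g.h - 1) by omega]
        exact up_step (σ := -1) (y := g.h - 1) (hd i) c3 (by rcases u2 i with h | h <;> omega)
          (by linarith) hG'
    · have h1 := abs_le.1 (hr j)
      have h2 := abs_le.1 (u4 j)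
      rw [Mo.mul_r, abs_le]
      omega

theorem mem_of_pow {D : ℤ} (hd : ∀ i, 0 ≤ d i) (n : ℕ) :
    ∀ g ∈ (SS d R D ∪ (SS d R D)⁻¹) ^ n, Mem D n g := by
  induction n with
  | zero =>
    intro g hg
    rw [pow_zero, Set.mem_one] at hg
    subst hg
    have : ∀ α, gg 0 0 0 0 0 α = 0 := fun α => by simp [gg, Phi, kap, tri_zero]
    refine ⟨0, 0, 0, by simp, by simp [Val], fun i => ?_, by simp⟩
    simp [Cd, Up, this, tri_zero]
  | succ n ih =>
    intro g hg
    rw [pow_succ] at hg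
    obtain ⟨g, hg, u, hu, rfl⟩ := hg
    push_cast
    exact mem_step hd (ih g hg) hu

theorem clampD {D u : ℤ} {n : ℕ} (hD : 0 ≤ D) (h : |u| ≤ D * (n + 1 : ℕ)) :
    ∃ η, |η| ≤ D ∧ |u - η| ≤ D * n := by
  have h0 : 0 ≤ D * n := by positivity
  push_cast at h
  rw [mul_add, mul_one, abs_le] at h
  refine ⟨max (-D) (min D u), ?_, ?_⟩ <;> rw [abs_le] <;> omega

theorem pow_of_walk {D : ℤ} (hD : 0 ≤ D) (H : ℕ → ℤ) (b : I → ℕ → ℤ)
    (hb : ∀ i l, b i l = 0 ∨ b i l = 1) (n : ℕ) : IsW n H → ∀ g : Mo d R, g.h = H n →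
    (∀ i, g.a i = ∑ l ∈ range n, (b i l - dn H l)) →
    (∀ i, |g.c i - d i * ∑ l ∈ range n, (b i l - dn H l) * yy H l| ≤ D * n) →
    (∀ j, |g.r j| ≤ n) → g ∈ (SS d R D ∪ (SS d R D)⁻¹) ^ n := by
  induction n with
  | zero =>
    intro hW g h1 h2 h3 h4
    rw [pow_zero, Set.mem_one]
    ext i
    · rw [h1, hW.1]; rfl
    · simpa using h2 i
    · simpa using h3 i
    · simpa using h4 i
  | succ n ih =>
    intro hW g h1 h2 h3 h4
    choose η hη1 hη2 using fun i => clampD hD (h3 i)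
    choose ρ hρ1 hρ2 using fun j => clampD (D := 1) zero_le_one (by simpa using h4 j : _)
    simp only [sum_range_succ] at h2 hη2
    rw [pow_succ]
    rcases hW.2 n (by omega) with e | e
    · have e1 : yy H n = H n := by rw [yy]; omega
      have e2 : dn H n = 0 := by rw [dn, if_neg (by omega)]
      refine ⟨g * (⟨1, fun i => b i n, η, ρ⟩ : Mo d R)⁻¹, ih hW.mono _ (by simp; omega)
        (fun i => by simp [h2, e2]) (fun i => ?_) fun j => by simpa [sub_eq_add_neg] using hρ2 j,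
        ⟨1, fun i => b i n, η, ρ⟩, Or.inl ⟨rfl, fun i => hb i n, hη1, hρ1⟩, by simp⟩
      convert hη2 i using 2
      simp only [Mo.mul_c, Mo.inv_c, Mo.inv_a, h1, e, e1, e2]
      ring
    · have e1 : yy H n = H n - 1 := by rw [yy]; omega
      have e2 : dn H n = 1 := by rw [dn, if_pos (by omega)]
      refine ⟨g * (⟨1, fun i => 1 - b i n, -η, -ρ⟩ : Mo d R), ih hW.mono _ (by simp; omega)
        (fun i => by simp [h2, e2, add_assoc]) (fun i => ?_)
        fun j => by simpa [sub_eq_add_neg] using hρ2 j,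
        (⟨1, fun i => 1 - b i n, -η, -ρ⟩ : Mo d R)⁻¹, Or.inr ?_, by simp⟩
      · convert hη2 i using 2
        simp only [Mo.mul_c, h1, e, e1, e2, Pi.neg_apply]
        ring
      · rw [Set.mem_inv, inv_inv]
        exact ⟨rfl, fun i => by rcases hb i n with h | h <;> simp [h],
          fun i => by simpa using hη1 i, fun j => by simpa using hρ1 j⟩

theorem mem_pow_iff {D : ℤ} (hD : 0 ≤ D) (hd : ∀ i, 0 ≤ d i ∧ d i ≤ D) (n : ℕ) (g : Mo d R) :
    g ∈ (SS d R D ∪ (SS d R D)⁻¹) ^ n ↔ Mem D n g := by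
  refine ⟨mem_of_pow (fun i => (hd i).1) n g, ?_⟩
  rintro ⟨L, A, z, e, hv, hc, hr⟩
  obtain ⟨n', H, e', hW, hx, hG⟩ := realize hv
  obtain rfl : n' = n := by omega
  have h1 := fun i => hW.subset (a := g.a i) (c := g.c i) (hd i).1 (hd i).2
    (by rw [hx]; exact (hc i).1) (fun α => by rw [hG]; exact (hc i).2.1 α)
    fun α => by rw [hG, hx]; exact (hc i).2.2 α
  choose s hs e1 e2 using h1
  refine pow_of_walk hD H (fun i l => if l ∈ s i then 1 else 0)
    (fun i l => by split_ifs <;> simp) n' hW g hx.symm (fun i => ?_) (fun i => ?_) hr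
  · rw [sum_sub_distrib, sum_ite_mem, inter_eq_right.2 (hs i), sum_const, nsmul_eq_mul, mul_one,
      e1]
    ring
  · convert e2 i using 4
    simp only [sub_mul, sum_sub_distrib, ite_mul, one_mul, zero_mul]
    rw [sum_ite_mem, inter_eq_right.2 (hs i)]

theorem SS_finite [Finite I] [Finite R] (D : ℤ) : (SS d R D).Finite := by
  have h : (Set.univ.pi (fun _ : I => Set.Icc (0 : ℤ) 1) ×ˢ
      Set.univ.pi (fun _ : I => Set.Icc (-D) D) ×ˢ
      Set.univ.pi fun _ : R => Set.Icc (-1 : ℤ) 1).Finite :=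
    (Set.Finite.pi fun _ => Set.finite_Icc _ _).prod ((Set.Finite.pi fun _ =>
      Set.finite_Icc _ _).prod (Set.Finite.pi fun _ => Set.finite_Icc _ _))
  refine (h.image fun p => (⟨1, p.1, p.2.1, p.2.2⟩ : Mo d R)).subset ?_
  rintro g ⟨h1, h2, h3, h4⟩
  refine ⟨(g.a, g.c, g.r), ⟨fun i _ => ?_, fun i _ => abs_le.1 (h3 i), fun j _ => abs_le.1 (h4 j)⟩,
    by ext <;> simp [h1]⟩
  rcases h2 i with h | h <;> simp [h]

theorem mem_of_single {J V : Type} [Finite J] [DecidableEq J] [AddCommGroup V]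
    (φ : (J → ℤ) →+ V) (P : AddSubgroup V) (h : ∀ j, φ (Pi.single j 1) ∈ P) (x : J → ℤ) :
    φ x ∈ P := by
  cases nonempty_fintype J
  rw [pi_eq_sum_univ' x, map_sum]
  exact sum_mem fun j _ => by rw [map_zsmul]; exact zsmul_mem (h j) _

theorem SS_closure [Finite I] [Finite R] {D : ℤ} (hD : 1 ≤ D) :
    Subgroup.closure (SS d R D) = ⊤ := by
  classical
  have ht : (⟨1, 0, 0, 0⟩ : Mo d R) ∈ Subgroup.closure (SS d R D) :=
    Subgroup.subset_closure ⟨rfl, by simp, by simp; omega, by simp⟩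
  have hk : ∀ k : ℤ, (⟨k, 0, 0, 0⟩ : Mo d R) ∈ Subgroup.closure (SS d R D) := fun k => by
    induction k using Int.induction_on with
    | zero => exact one_mem _
    | succ k ih => convert mul_mem ih ht using 1; ext <;> simp
    | pred k ih => convert mul_mem ih (inv_mem ht) using 1; ext <;> simp [sub_eq_add_neg]
  let P : AddSubgroup ((I → ℤ) × (I → ℤ) × (R → ℤ)) :=
    { carrier := {v | (⟨0, v.1, v.2.1, v.2.2⟩ : Mo d R) ∈ Subgroup.closure (SS d R D)}
      zero_mem' := (Subgroup.closure (SS d R D)).one_mem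
      add_mem' := fun {v w} h1 h2 => by
        have h := (Subgroup.closure (SS d R D)).mul_mem h1 h2
        have e : (⟨0, v.1, v.2.1, v.2.2⟩ : Mo d R) * ⟨0, w.1, w.2.1, w.2.2⟩ =
          ⟨0, (v + w).1, (v + w).2.1, (v + w).2.2⟩ := by ext <;> simp
        rwa [e] at h
      neg_mem' := fun {v} h1 => by
        have h := (Subgroup.closure (SS d R D)).inv_mem h1
        have e : (⟨0, v.1, v.2.1, v.2.2⟩ : Mo d R)⁻¹ =
          ⟨0, (-v).1, (-v).2.1, (-v).2.2⟩ := by ext <;> simp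
        rwa [e] at h }
  have hP : ∀ a c r, (⟨1, a, c, r⟩ : Mo d R) ∈ SS d R D → (a, c, r) ∈ P := fun a c r h => by
    have h := mul_mem (Subgroup.subset_closure h) (inv_mem ht)
    have e : (⟨1, a, c, r⟩ : Mo d R) * (⟨1, 0, 0, 0⟩ : Mo d R)⁻¹ = ⟨0, a, c, r⟩ := by
      ext <;> simp
    rwa [e] at h
  have hs : ∀ {J : Type} [DecidableEq J] (i j : J), (Pi.single i 1 : J → ℤ) j = 0 ∨
      (Pi.single i 1 : J → ℤ) j = 1 := fun i j => by
    rw [Pi.single_apply]
    split_ifs <;> simp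
  have h0 : |(0 : ℤ)| ≤ D := by simp; omega
  rw [eq_top_iff]
  intro g _
  have h1 := mem_of_single (AddMonoidHom.inl _ _) P (fun i => hP _ 0 0
    ⟨rfl, hs i, fun _ => h0, by simp⟩) g.a
  have h2 := mem_of_single ((AddMonoidHom.inr _ _).comp (AddMonoidHom.inl _ _)) P
    (fun i => hP 0 _ 0 ⟨rfl, by simp, fun j => by rcases hs i j with h | h <;> simp [h] <;> omega,
      by simp⟩) g.c
  have h3 := mem_of_single ((AddMonoidHom.inr _ _).comp (AddMonoidHom.inr _ _)) P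
    (fun i => hP 0 0 _ ⟨rfl, by simp, fun _ => h0,
      fun j => by rcases hs i j with h | h <;> simp [h]⟩) g.r
  have h5 : (g.a, g.c, g.r) ∈ P := by simpa using add_mem h1 (add_mem h2 h3)
  have h4 : (⟨0, g.a, g.c, g.r⟩ : Mo d R) ∈ Subgroup.closure (SS d R D) := h5
  convert mul_mem h4 (hk g.h) using 1
  ext <;> simp

end Pool.Agent.P.MP_a0f0ad_al
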