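import Mathlib

/-! Fibre counts of semilinear sets have rational generating functions. -/

set_option autoImplicit false

namespace Pool.Agent.P.MP_a0f0ad_al
open Pointwise

/-- rational power series -/
def Rt (F : PowerSeries ℚ) : Prop :=
  ∃ P Q : Polynomial ℚ, Q.coeff 0 ≠ 0 ∧ (Q : PowerSeries ℚ) * F = (P : PowerSeries ℚ)

theorem Rt.poly (P : Polynomial ℚ) : Rt (P : PowerSeries ℚ) := ⟨P, 1, by simp, by simp⟩

theorem Rt.add {F G : PowerSeries ℚ} (hF : Rt F) (hG : Rt G) : Rt (F + G) := by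
  obtain ⟨P, Q, h, e⟩ := hF
  obtain ⟨P', Q', h', e'⟩ := hG
  refine ⟨P * Q' + Q * P', Q * Q', by simp [h, h'], ?_⟩
  push_cast
  rw [← e, ← e']
  ring

theorem Rt.mul {F G : PowerSeries ℚ} (hF : Rt F) (hG : Rt G) : Rt (F * G) := by
  obtain ⟨P, Q, h, e⟩ := hF
  obtain ⟨P', Q', h', e'⟩ := hG
  refine ⟨P * P', Q * Q', by simp [h, h'], ?_⟩
  push_cast
  rw [← e, ← e']
  ring

theorem Rt.smul {F : PowerSeries ℚ} (c : ℚ) (hF : Rt F) : Rt (c • F) := by
  have := (Rt.poly (Polynomial.C c)).mul hF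
  rwa [Polynomial.coe_C, ← PowerSeries.smul_eq_C_mul] at this

theorem Rt.sub {F G : PowerSeries ℚ} (hF : Rt F) (hG : Rt G) : Rt (F - G) := by
  have := hF.add (hG.smul (-1))
  rwa [neg_one_smul, ← sub_eq_add_neg] at this

theorem Rt.cancel {F : PowerSeries ℚ} (Q : Polynomial ℚ) (hQ : Q.coeff 0 ≠ 0)
    (h : Rt ((Q : PowerSeries ℚ) * F)) : Rt F := by
  obtain ⟨P, Q', h', e⟩ := h
  refine ⟨P, Q' * Q, by simp [hQ, h'], ?_⟩
  push_cast
  rw [← e]
  ring

theorem Rt.of_eventually (f : ℕ → ℚ) (N : ℕ) (h : ∀ n, N ≤ n → f n = 0) :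
    Rt (PowerSeries.mk f) := by
  have : PowerSeries.mk f = (PowerSeries.trunc N (PowerSeries.mk f) : Polynomial ℚ) := by
    ext n
    rw [Polynomial.coeff_coe, PowerSeries.coeff_trunc]
    split_ifs with hn
    · rfl
    · rw [PowerSeries.coeff_mk, h n (not_lt.1 hn)]
  rw [this]
  exact Rt.poly _

theorem dickson {N : Type} [AddCommMonoid N] [PartialOrder N] [WellQuasiOrderedLE N]
    [CanonicallyOrderedAdd N] (E : Set N) :
    ∃ E0 : Set N, E0.Finite ∧ E0 ⊆ E ∧ ∀ e ∈ E, ∃ m ∈ E0, ∃ k, e = m + k := by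
  refine ⟨{x | Minimal (· ∈ E) x},
    WellQuasiOrderedLE.finite_of_isAntichain (setOfPred_minimal_antichain _),
    fun x hx => hx.1, fun e he => ?_⟩
  obtain ⟨b, hb, hm⟩ := exists_minimal_le_of_wellFoundedLT (· ∈ E) e he
  exact ⟨b, hm, exists_add_of_le hb⟩

section
variable {M : Type} [AddCommMonoid M]

/-- finite unions of cosets of `P` -/
def Hyb (P : AddSubmonoid M) (S : Set M) : Prop :=
  ∃ B : Set M, B.Finite ∧ ∀ x, x ∈ S ↔ ∃ b ∈ B, ∃ p ∈ P, x = b + p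

theorem Hyb.noeth {P : AddSubmonoid M} (hP : P.FG) {S S1 : Set M} (h : Hyb P S) (h1 : S1 ⊆ S)
    (hc : ∀ x ∈ S1, ∀ p ∈ P, x + p ∈ S1) : Hyb P S1 := by
  obtain ⟨r, f, rfl⟩ := AddSubmonoid.fg_iff_exists_fin_addMonoidHom.1 hP
  obtain ⟨B, hB, e⟩ := h
  choose E hE1 hE2 hE3 using fun b : M => dickson {μ : Fin r → ℕ | b + f μ ∈ S1}
  refine ⟨⋃ b ∈ B, (fun μ => b + f μ) '' E b, hB.biUnion fun b _ => (hE1 b).image _,
    fun x => ⟨fun hx => ?_, ?_⟩⟩
  · obtain ⟨b, hb, _, ⟨μ, rfl⟩, rfl⟩ := (e x).1 (h1 hx)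
    obtain ⟨m, hm, k, rfl⟩ := hE3 b μ hx
    exact ⟨b + f m, Set.mem_biUnion hb ⟨m, hm, rfl⟩, f k, ⟨k, rfl⟩, by rw [map_add, add_assoc]⟩
  · rintro ⟨y, hy, p, hp, rfl⟩
    simp only [Set.mem_iUnion] at hy
    obtain ⟨b, -, m, hm, rfl⟩ := hy
    exact hc _ (hE2 b hm) p hp

theorem Hyb.inter [IsCancelAdd M] {P P' : AddSubmonoid M} (hP : P.FG) (hP' : P'.FG)
    {S S' : Set M} (h : Hyb P S) (h' : Hyb P' S') : (P ⊓ P').FG ∧ Hyb (P ⊓ P') (S ∩ S') := by
  obtain ⟨r, f, rfl⟩ := AddSubmonoid.fg_iff_exists_fin_addMonoidHom.1 hP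
  obtain ⟨r', f', rfl⟩ := AddSubmonoid.fg_iff_exists_fin_addMonoidHom.1 hP'
  obtain ⟨B, hB, e⟩ := h
  obtain ⟨B', hB', e'⟩ := h'
  constructor
  · have := (AddSubmonoid.fg_eqLocusM (f.comp (AddMonoidHom.fst (Fin r → ℕ) (Fin r' → ℕ)))
      (f'.comp (AddMonoidHom.snd _ _))).map (f.comp (AddMonoidHom.fst (Fin r → ℕ) (Fin r' → ℕ)))
    convert this using 1
    ext x
    constructor
    · rintro ⟨⟨μ, rfl⟩, ⟨ν, hν⟩⟩
      exact ⟨(μ, ν), hν.symm, rfl⟩
    · rintro ⟨⟨μ, ν⟩, hν, rfl⟩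
      exact ⟨⟨μ, rfl⟩, ⟨ν, hν.symm⟩⟩
  choose E hE1 hE2 hE3 using fun b b' : M =>
    dickson {μ : (Fin r → ℕ) × (Fin r' → ℕ) | b + f μ.1 = b' + f' μ.2}
  have hfin : (⋃ b ∈ B, ⋃ b' ∈ B',
      (fun μ : (Fin r → ℕ) × (Fin r' → ℕ) => b + f μ.1) '' E b b').Finite :=
    Set.Finite.biUnion hB fun b _ => Set.Finite.biUnion hB' fun b' _ => (hE1 b b').image _
  refine ⟨_, hfin, fun x => ⟨fun hx => ?_, ?_⟩⟩
  · obtain ⟨b, hb, _, ⟨μ, rfl⟩, e1⟩ := (e x).1 hx.1
    obtain ⟨b', hb', _, ⟨ν, rfl⟩, e2⟩ := (e' x).1 hx.2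
    obtain ⟨m, hm, k, hk⟩ := hE3 b b' (μ, ν) (e1.symm.trans e2)
    have k1 : μ = m.1 + k.1 := congrArg Prod.fst hk
    have k2 : ν = m.2 + k.2 := congrArg Prod.snd hk
    have h0 : b + f m.1 = b' + f' m.2 := hE2 b b' hm
    have h1 := e1.symm.trans e2
    rw [k1, k2, map_add, map_add, ← add_assoc, ← add_assoc, h0] at h1
    refine ⟨b + f m.1, ?_, f k.1,
      ⟨⟨_, rfl⟩, k.2, (add_left_cancel h1).symm⟩, by rw [e1, k1, map_add, add_assoc]⟩
    simp only [Set.mem_iUnion]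
    exact ⟨b, hb, b', hb', m, hm, rfl⟩
  · rintro ⟨y, hy, p, ⟨⟨k, hk⟩, k', hk'⟩, rfl⟩
    simp only [Set.mem_iUnion] at hy
    obtain ⟨b, hb, b', hb', m, hm, rfl⟩ := hy
    have h0 : b + f m.1 = b' + f' m.2 := hE2 b b' hm
    exact ⟨(e _).2 ⟨b, hb, f (m.1 + k), ⟨_, rfl⟩, by rw [map_add, hk, add_assoc]⟩,
      (e' _).2 ⟨b', hb', f' (m.2 + k'), ⟨_, rfl⟩, by
        beta_reduce; rw [map_add, hk', h0, add_assoc]⟩⟩

theorem mem_cl_insert [DecidableEq M] (g : M) (t : Finset M) (p : M) :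
    p ∈ AddSubmonoid.closure ((insert g t : Finset M) : Set M) ↔
      ∃ k : ℕ, ∃ p' ∈ AddSubmonoid.closure (t : Set M), p = k • g + p' := by
  rw [Finset.coe_insert, Set.insert_eq, AddSubmonoid.closure_union, AddSubmonoid.mem_sup]
  constructor
  · rintro ⟨y, hy, z, hz, rfl⟩
    obtain ⟨k, rfl⟩ := AddSubmonoid.mem_closure_singleton.1 hy
    exact ⟨k, z, hz, rfl⟩
  · rintro ⟨k, z, hz, rfl⟩
    exact ⟨_, AddSubmonoid.mem_closure_singleton.2 ⟨k, rfl⟩, z, hz, rfl⟩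

theorem cl_closed {t : Set M} {T : Set M} (h : ∀ x ∈ T, ∀ g ∈ t, x + g ∈ T) :
    ∀ p ∈ AddSubmonoid.closure t, ∀ x ∈ T, x + p ∈ T := by
  intro p hp
  induction hp using AddSubmonoid.closure_induction with
  | mem g hg => exact fun x hx => h x hx g hg
  | zero => simp
  | add a b _ _ ha hb => exact fun x hx => by rw [← add_assoc]; exact hb _ (ha x hx)

variable (deg : M →+ ℕ)

/-- the counting series of `S` -/
noncomputable def cnt (S : Set M) : PowerSeries ℚ :=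
  PowerSeries.mk fun n => (({x ∈ S | deg x = n}.ncard : ℕ) : ℚ)

/-- finite fibres -/
def FF (S : Set M) : Prop := ∀ n, {x ∈ S | deg x = n}.Finite

theorem FF.mono {S T : Set M} (h : FF deg T) (hS : S ⊆ T) : FF deg S :=
  fun n => (h n).subset fun _ hx => ⟨hS hx.1, hx.2⟩

theorem cnt_union {S T : Set M} (hS : FF deg S) (hT : FF deg T) :
    cnt deg (S ∪ T) = cnt deg S + cnt deg T - cnt deg (S ∩ T) := by
  ext n
  have := Set.ncard_union_add_ncard_inter _ _ (hS n) (hT n)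
  have e1 : {x ∈ S | deg x = n} ∪ {x ∈ T | deg x = n} = {x ∈ S ∪ T | deg x = n} := by
    ext x; simp only [Set.mem_union, Set.mem_ofPred_eq]; tauto
  have e2 : {x ∈ S | deg x = n} ∩ {x ∈ T | deg x = n} = {x ∈ S ∩ T | deg x = n} := by
    ext x; simp only [Set.mem_inter_iff, Set.mem_ofPred_eq]; tauto
  rw [e1, e2] at this
  simp only [cnt, map_sub, map_add, PowerSeries.coeff_mk]
  rw [eq_sub_iff_add_eq]
  exact_mod_cast this

theorem cnt_disj {S T : Set M} (hS : FF deg S) (hT : FF deg T) (h : ∀ x ∈ S, x ∉ T) :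
    cnt deg (S ∪ T) = cnt deg S + cnt deg T := by
  have : S ∩ T = ∅ := Set.eq_empty_of_forall_notMem fun x hx => h x hx.1 hx.2
  rw [cnt_union deg hS hT, this]
  have h0 : cnt deg (∅ : Set M) = 0 := by ext n; simp [cnt]
  rw [h0, sub_zero]

theorem cnt_shift [IsCancelAdd M] (g : M) (S : Set M) :
    cnt deg ((fun x => x + g) '' S) = PowerSeries.X ^ deg g * cnt deg S := by
  ext n
  rw [PowerSeries.coeff_X_pow_mul']
  simp only [cnt, PowerSeries.coeff_mk]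
  split_ifs with h
  · rw [← Set.ncard_image_of_injective {x ∈ S | deg x = n - deg g} (add_left_injective g)]
    congr 2
    ext x
    constructor
    · rintro ⟨⟨y, hy, rfl⟩, e⟩
      refine ⟨y, ⟨hy, ?_⟩, rfl⟩
      rw [map_add] at e
      omega
    · rintro ⟨y, ⟨hy, e⟩, rfl⟩
      refine ⟨⟨y, hy, rfl⟩, ?_⟩
      rw [map_add]
      omega
  · have : {x ∈ (fun x => x + g) '' S | deg x = n} = ∅ := by
      refine Set.eq_empty_of_forall_notMem ?_
      rintro _ ⟨⟨y, hy, rfl⟩, e⟩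
      rw [map_add] at e
      omega
    rw [this]
    simp

theorem FF.shift [IsCancelAdd M] (g : M) {S : Set M} (h : FF deg S) :
    FF deg ((fun x => x + g) '' S) := fun n => by
  refine ((h (n - deg g)).image fun x => x + g).subset ?_
  rintro _ ⟨⟨y, hy, rfl⟩, e⟩
  refine ⟨y, ⟨hy, ?_⟩, rfl⟩
  rw [map_add] at e
  omega

theorem rt_hyb [IsCancelAdd M] (t : Finset M) : ∀ S T : Set M,
    Hyb (AddSubmonoid.closure (t : Set M)) S → (∀ x ∈ T, ∀ g ∈ t, x + g ∈ T) → FF deg S →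
      Rt (cnt deg (S \ T)) := by
  classical
  induction t using Finset.induction_on with
  | empty =>
    rintro S T ⟨B, hB, e⟩ - -
    obtain ⟨N, hN⟩ := (hB.image deg).bddAbove
    refine Rt.of_eventually _ (N + 1) fun n hn => ?_
    have : {x ∈ S \ T | deg x = n} = ∅ := by
      refine Set.eq_empty_of_forall_notMem ?_
      rintro x ⟨hx, e1⟩
      obtain ⟨b, hb, p, hp, rfl⟩ := (e x).1 hx.1
      have hp0 : p = 0 := by simpa using hp
      have := hN ⟨b, hb, rfl⟩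
      rw [hp0, add_zero] at e1
      omega
    rw [this]
    simp
  | insert g t _ ih =>
    intro S T hS hT hF
    have hg : g ∈ AddSubmonoid.closure ((insert g t : Finset M) : Set M) :=
      AddSubmonoid.subset_closure (by simp)
    have hle : AddSubmonoid.closure (t : Set M) ≤
        AddSubmonoid.closure ((insert g t : Finset M) : Set M) :=
      AddSubmonoid.closure_mono (by simp)
    have hSc : ∀ x ∈ S, ∀ p ∈ AddSubmonoid.closure ((insert g t : Finset M) : Set M),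
        x + p ∈ S := by
      obtain ⟨B, -, e⟩ := hS
      intro x hx p hp
      obtain ⟨b, hb, q, hq, rfl⟩ := (e x).1 hx
      exact (e _).2 ⟨b, hb, q + p, add_mem hq hp, add_assoc _ _ _⟩
    by_cases hd : deg g = 0
    · refine ih S T ?_ (fun x hx g' hg' => hT x hx g' (Finset.mem_insert_of_mem hg')) hF
      obtain ⟨B, hB, e⟩ := hS
      refine ⟨⋃ b ∈ B, {x ∈ S | deg x = deg b}, hB.biUnion fun b _ => hF _,
        fun x => ⟨fun hx => ?_, ?_⟩⟩
      · obtain ⟨b, hb, p, hp, rfl⟩ := (e x).1 hx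
        obtain ⟨k, p', hp', rfl⟩ := (mem_cl_insert g t p).1 hp
        refine ⟨b + k • g, Set.mem_biUnion hb ⟨(e _).2 ⟨b, hb, _, nsmul_mem hg k, rfl⟩, ?_⟩,
          p', hp', (add_assoc _ _ _).symm⟩
        simp [hd]
      · rintro ⟨y, hy, p, hp, rfl⟩
        simp only [Set.mem_iUnion] at hy
        obtain ⟨b, -, hy, -⟩ := hy
        exact hSc y hy p (hle hp)
    have key : ∀ S1 T1 : Set M, Hyb (AddSubmonoid.closure ((insert g t : Finset M) : Set M)) S1 →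
        S1 ⊆ S → (∀ x ∈ T1, ∀ g' ∈ insert g t, x + g' ∈ T1) → (∀ x ∈ S1, x + g ∈ T1) →
        Rt (cnt deg (S1 \ T1)) := by
      rintro S1 T1 ⟨B, hB, e⟩ h1 h2 h3
      have hsub : {x | ∃ b ∈ B, ∃ p ∈ AddSubmonoid.closure (t : Set M), x = b + p} ⊆ S1 := by
        rintro _ ⟨b, hb, p, hp, rfl⟩
        exact (e _).2 ⟨b, hb, p, hle hp, rfl⟩
      have := ih {x | ∃ b ∈ B, ∃ p ∈ AddSubmonoid.closure (t : Set M), x = b + p} T1
        ⟨B, hB, fun _ => Iff.rfl⟩ (fun x hx g' hg' => h2 x hx g' (Finset.mem_insert_of_mem hg'))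
        (hF.mono deg (hsub.trans h1))
      convert this using 2
      refine Set.Subset.antisymm (fun x hx => ⟨?_, hx.2⟩) fun x hx => ⟨hsub hx.1, hx.2⟩
      obtain ⟨b, hb, p, hp, rfl⟩ := (e x).1 hx.1
      obtain ⟨k, p', hp', rfl⟩ := (mem_cl_insert g t p).1 hp
      rcases k with _ | k
      · exact ⟨b, hb, p', hp', by simp⟩
      · exact absurd (h3 (b + (k • g + p')) ((e _).2 ⟨b, hb, _,
          add_mem (nsmul_mem hg k) (hle hp'), rfl⟩)) (by
            rw [show b + (k • g + p') + g = b + ((k + 1) • g + p') by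
              rw [succ_nsmul]; abel]
            exact hx.2)
    have h1 := key S (T ∪ (fun x => x + g) '' S) hS Set.Subset.rfl (by
      rintro x (hx | ⟨y, hy, rfl⟩) g' hg'
      · exact Or.inl (hT x hx g' hg')
      · exact Or.inr ⟨y + g', hSc y hy g' (AddSubmonoid.subset_closure hg'),
          add_right_comm _ _ _⟩) fun x hx => Or.inr ⟨x, hx, rfl⟩
    have h2 := key {x ∈ S | x + g ∈ T} T (hS.noeth ⟨_, rfl⟩ (fun x hx => hx.1)
      fun x hx p hp => ⟨hSc x hx.1 p hp, by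
        rw [add_right_comm]; exact cl_closed (fun x hx g' hg' => hT x hx g' hg') p hp _ hx.2⟩)
      (fun x hx => hx.1) hT fun x hx => hx.2
    have e1 : S \ T = (S \ (T ∪ (fun x => x + g) '' S)) ∪
        (fun x => x + g) '' {x ∈ S | x + g ∉ T} := by
      ext x
      constructor
      · intro hx
        by_cases h : x ∈ (fun x => x + g) '' S
        · obtain ⟨y, hy, rfl⟩ := h
          exact Or.inr ⟨y, ⟨hy, hx.2⟩, rfl⟩
        · exact Or.inl ⟨hx.1, fun h' => h'.elim hx.2 h⟩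
      · rintro (hx | ⟨y, hy, rfl⟩)
        · exact ⟨hx.1, fun h => hx.2 (Or.inl h)⟩
        · exact ⟨hSc y hy.1 g hg, hy.2⟩
    have e2 : S \ T = ({x ∈ S | x + g ∈ T} \ T) ∪ {x ∈ S | x + g ∉ T} := by
      ext x
      constructor
      · intro hx
        by_cases h : x + g ∈ T
        · exact Or.inl ⟨⟨hx.1, h⟩, hx.2⟩
        · exact Or.inr ⟨hx.1, h⟩
      · rintro (hx | hx)
        · exact ⟨hx.1.1, hx.2⟩
        · exact ⟨hx.1, fun h => hx.2 (hT x h g (Finset.mem_insert_self _ _))⟩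
    have f1 : FF deg {x ∈ S | x + g ∉ T} := hF.mono deg fun x hx => hx.1
    have c1 := congrArg (cnt deg) e1
    have c2 := congrArg (cnt deg) e2
    rw [cnt_disj deg (hF.mono deg fun x hx => hx.1) (f1.shift deg g) (by
      rintro x hx ⟨y, hy, rfl⟩
      exact hx.2 (Or.inr ⟨y, hy.1, rfl⟩)), cnt_shift] at c1
    rw [cnt_disj deg (hF.mono deg fun x hx => hx.1.1) f1 fun x hx h => h.2 hx.1.2] at c2
    refine Rt.cancel (1 - Polynomial.X ^ deg g) (by
      rw [Polynomial.coeff_sub, Polynomial.coeff_X_pow, if_neg (Ne.symm hd)]; simp) ?_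
    have h3 := h1.sub ((Rt.poly (Polynomial.X ^ deg g)).mul h2)
    convert h3 using 1
    push_cast
    linear_combination c1 - PowerSeries.X ^ deg g * c2

theorem rt_union [IsCancelAdd M] (k : ℕ) : ∀ S : Fin k → Set M,
    (∀ i, ∃ P : AddSubmonoid M, P.FG ∧ Hyb P (S i)) → (∀ i, FF deg (S i)) →
      Rt (cnt deg (⋃ i, S i)) := by
  induction k with
  | zero =>
    intro S _ _
    refine Rt.of_eventually _ 0 fun n _ => by simp
  | succ k ih =>
    intro S h hF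
    have hU : FF deg (⋃ i : Fin k, S i.succ) := fun n =>
      (Set.finite_iUnion fun i : Fin k => hF i.succ n).subset fun x hx => by
        obtain ⟨i, hi⟩ := Set.mem_iUnion.1 hx.1
        exact Set.mem_iUnion.2 ⟨i, hi, hx.2⟩
    have e : (⋃ i, S i) = S 0 ∪ ⋃ i : Fin k, S i.succ := by
      ext x; simp [Fin.exists_fin_succ]
    rw [e, cnt_union deg (hF 0) hU, Set.inter_iUnion]
    obtain ⟨P, ⟨t, rfl⟩, hP⟩ := h 0
    refine Rt.sub (Rt.add ?_ (ih _ (fun i => h i.succ) fun i => hF i.succ))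
      (ih _ (fun i => ?_) fun i => (hF 0).mono deg Set.inter_subset_left)
    · simpa using rt_hyb deg t (S 0) ∅ hP (by simp) (hF 0)
    · obtain ⟨P', hP', h'⟩ := h i.succ
      exact ⟨_, hP.inter ⟨t, rfl⟩ hP' h'⟩

theorem rt_semilinear [IsCancelAdd M] {S : Set M} (hS : IsSemilinearSet S) (hF : FF deg S) :
    Rt (cnt deg S) := by
  obtain ⟨U, hU, h, rfl⟩ := hS
  obtain ⟨k, f, rfl⟩ := hU.fin_embedding
  rw [Set.sUnion_range] at hF ⊢
  refine rt_union deg k _ (fun i => ?_) fun i => hF.mono deg (Set.subset_iUnion _ i)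
  obtain ⟨a, P, hP, e⟩ := isLinearSet_iff_exists_fg_eq_vadd.1 (h _ ⟨i, rfl⟩)
  refine ⟨P, hP, {a}, Set.finite_singleton a, fun x => ?_⟩
  rw [e]
  simp [Set.mem_vadd_set, eq_comm]

end

end Pool.Agent.P.MP_a0f0ad_al
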