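import Pool.Agent.P.MP_a0f0ad_al.Count

/-! Reduction to the model groups. -/

set_option autoImplicit false

namespace Pool.Agent.P.MP_a0f0ad_al
open Pointwise commutatorElement

theorem ball_succ {G : Type} [Group G] {U : Set G} (h1 : (1 : G) ∈ U * U) (n : ℕ) :
    ({1} ∪ U) ^ (n + 1) = U ^ (n + 1) ∪ U ^ n := by
  induction n with
  | zero => rw [zero_add, pow_one, pow_one, pow_zero, Set.union_comm]; rfl
  | succ n ih =>
    have h2 : U ^ n ⊆ U ^ (n + 1 + 1) := fun g hg => by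
      rw [add_assoc, pow_add, ← mul_one g, show 1 + 1 = 2 from rfl, pow_two]
      exact Set.mul_mem_mul hg h1
    rw [pow_succ, ih, Set.mul_union, Set.singleton_one, mul_one, Set.union_mul, ← pow_succ,
      ← pow_succ]
    ext g
    have := @h2 g
    simp only [Set.mem_union]
    tauto

theorem preimage_pow {G M : Type} [Group G] [Group M] (π : G →* M) (hπ : Function.Surjective π)
    (U : Set M) (n : ℕ) : (π ⁻¹' U) ^ (n + 1) = π ⁻¹' U ^ (n + 1) := by
  induction n with
  | zero => simp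
  | succ n ih =>
    rw [pow_succ, ih, pow_succ U (n + 1)]
    refine Set.Subset.antisymm (Set.preimage_mul_preimage_subset π) fun g hg => ?_
    obtain ⟨a, ha, b, hb, e⟩ := hg
    obtain ⟨b, rfl⟩ := hπ b
    refine ⟨g * b⁻¹, ?_, b, hb, by simp⟩
    rw [Set.mem_preimage, map_mul, map_inv, ← e]
    simpa using ha

theorem ncard_preimage {G M : Type} [Group G] [Group M] (π : G →* M)
    (hπ : Function.Surjective π) (U : Set M) :
    (π ⁻¹' U).ncard = Nat.card π.ker * U.ncard := by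
  choose σ hσ using hπ
  rw [← Nat.card_coe_set_eq, ← Nat.card_coe_set_eq, ← Nat.card_prod]
  exact Nat.card_congr
    { toFun := fun g => (⟨g.1 * (σ (π g.1))⁻¹, by simp [hσ]⟩, ⟨π g.1, g.2⟩)
      invFun := fun p => ⟨p.1.1 * σ p.2.1, by
        rw [Set.mem_preimage, map_mul, MonoidHom.mem_ker.1 p.1.2, one_mul, hσ]; exact p.2.2⟩
      left_inv := fun g => by simp
      right_inv := fun p => by
        have h : π (p.1.1 * σ p.2.1) = p.2.1 := by
          rw [map_mul, MonoidHom.mem_ker.1 p.1.2, one_mul, hσ]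
        ext <;> simp only [h, mul_inv_cancel_right] }

theorem growth_of_model {G I R : Type} [Group G] [Fintype I] [Fintype R] {d : I → ℤ}
    (hd : ∀ i, 0 ≤ d i) (π : G →* Mo d R) (hπ : Function.Surjective π) [Finite π.ker] :
    ∃ S : Finset G, Subgroup.closure (S : Set G) = ⊤ ∧ Rt (PowerSeries.mk fun n : ℕ =>
      ((((({1} : Set G) ∪ (S : Set G) ∪ (S : Set G)⁻¹) ^ n).ncard : ℕ) : ℚ)) := by
  classical
  set D : ℤ := ∑ i, d i + 1 with hD
  have hD1 : 1 ≤ D := by
    have := Finset.sum_nonneg fun i (_ : i ∈ Finset.univ) => hd i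
    omega
  have hd' : ∀ i, 0 ≤ d i ∧ d i ≤ D := fun i => ⟨hd i, by
    have := Finset.single_le_sum (fun i (_ : i ∈ Finset.univ) => hd i) (Finset.mem_univ i)
    omega⟩
  have hfin : ∀ U : Set (Mo d R), U.Finite → (π ⁻¹' U).Finite := fun U hU =>
    hU.preimage' fun b _ => Finite.of_equiv _ (MonoidHom.fiberEquivKerOfSurjective hπ b).symm
  obtain ⟨t, ht⟩ := hπ ⟨1, 0, 0, 0⟩
  have ht' : π t ∈ SS d R D := by
    rw [ht]
    exact ⟨rfl, by simp, by simp; omega, by simp⟩
  refine ⟨(hfin _ (SS_finite D)).toFinset, ?_, ?_⟩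
  · rw [Set.Finite.coe_toFinset, eq_top_iff]
    intro g _
    have h1 : π g ∈ (Subgroup.closure (π ⁻¹' SS d R D)).map π := by
      rw [MonoidHom.map_closure, Set.image_preimage_eq _ hπ, SS_closure hD1]
      trivial
    obtain ⟨g', h2, h3⟩ := h1
    have h4 : g * g'⁻¹ * t ∈ π ⁻¹' SS d R D := by
      rw [Set.mem_preimage, map_mul, map_mul, map_inv, h3, mul_inv_cancel, one_mul]
      exact ht'
    convert mul_mem (mul_mem (Subgroup.subset_closure h4)
      (inv_mem (Subgroup.subset_closure (show t ∈ π ⁻¹' SS d R D from ht')))) h2 using 1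
    group
  have e0 : π ⁻¹' SS d R D ∪ (π ⁻¹' SS d R D)⁻¹ = π ⁻¹' (SS d R D ∪ (SS d R D)⁻¹) := by
    ext g
    simp
  rw [Set.Finite.coe_toFinset, Set.union_assoc, e0]
  set U := SS d R D ∪ (SS d R D)⁻¹ with hU
  have hUf : U.Finite := (SS_finite D).union (SS_finite D).inv
  have hpow : ∀ n : ℕ, ((π ⁻¹' U) ^ n).Finite := fun n => by
    induction n with
    | zero => exact Set.finite_one
    | succ n ih => rw [pow_succ]; exact ih.mul (hfin _ hUf)
  have h1 : (1 : G) ∈ π ⁻¹' U * π ⁻¹' U :=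
    ⟨t, Or.inl ht', t⁻¹, Or.inr (by simpa using ht'), mul_inv_cancel t⟩
  have par : ∀ n : ℕ, ∀ g ∈ (π ⁻¹' U) ^ n, ((π g).h + n) % 2 = 0 := by
    rintro (_ | n) g hg
    · rw [pow_zero, Set.mem_one] at hg
      simp [hg]
    · rw [preimage_pow π hπ] at hg
      obtain ⟨L, A, z, e, -⟩ := mem_of_pow hd _ _ hg
      rw [abs_eq_max_neg] at e
      omega
  have r1 : Rt (PowerSeries.mk fun n => ((((π ⁻¹' U) ^ n).ncard : ℕ) : ℚ)) := by
    convert ((rt_mem (R := R) hd').smul (Nat.card π.ker)).add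
      (Rt.poly (Polynomial.C (1 - Nat.card π.ker))) using 1
    have e1 : ∀ n : ℕ, {g : Mo d R | Mem D n g} = U ^ n := fun n =>
      Set.ext fun g => (mem_pow_iff (by omega) hd' n g).symm
    ext n
    rcases n with _ | n
    · simp [e1, -Nat.cast_zero, -CharP.cast_eq_zero, ← Set.singleton_one]
    · rw [map_add, PowerSeries.coeff_smul, PowerSeries.coeff_mk, PowerSeries.coeff_mk, e1,
        preimage_pow π hπ, ncard_preimage π hπ]
      simp
  convert (Rt.poly (1 + Polynomial.X)).mul r1 using 1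
  ext n
  push_cast
  rw [add_mul, one_mul, map_add]
  rcases n with _ | n
  · simp
  · rw [PowerSeries.coeff_succ_X_mul, PowerSeries.coeff_mk, PowerSeries.coeff_mk,
      PowerSeries.coeff_mk, ball_succ h1, Set.ncard_union_eq _ (hpow _) (hpow _), Nat.cast_add]
    rw [Set.disjoint_left]
    intro g h2 h3
    have := par _ g h2
    have := par _ g h3
    omega

theorem lin_free {F : Type} [AddCommGroup F] [Module.Finite ℤ F] [Module.Free ℤ F]
    (N : F →ₗ[ℤ] F) (hN : ∀ x, N (N x) = 0) :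
    ∃ (I R : Type) (_ : Fintype I) (_ : Fintype R) (d : I → ℤ)
      (f : F →ₗ[ℤ] (I → ℤ) × (I → ℤ) × (R → ℤ)), (∀ i, 0 ≤ d i) ∧ Function.Bijective f ∧
      ∀ x, f (N x) = (0, fun i => d i * (f x).1 i, 0) := by
  classical
  obtain ⟨k, snf⟩ := Submodule.smithNormalForm (Module.Free.chooseBasis ℤ (LinearMap.ker N))
    ((LinearMap.range N).comap (LinearMap.ker N).subtype)
  let N0 : F →ₗ[ℤ] LinearMap.ker N := N.codRestrict _ hN
  let N1 : F →ₗ[ℤ] (LinearMap.range N).comap (LinearMap.ker N).subtype :=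
    N0.codRestrict _ fun x => ⟨x, rfl⟩
  have hN1 : Function.Surjective N1 := by
    rintro ⟨y, x, hx⟩
    exact ⟨x, Subtype.ext (Subtype.ext hx)⟩
  have hker : ∀ x, N1 x = 0 ↔ N x = 0 := fun x => by
    rw [Subtype.ext_iff, Subtype.ext_iff]
    rfl
  let fa : F →ₗ[ℤ] (Fin k → ℤ) := snf.bN.equivFun.toLinearMap.comp N1
  obtain ⟨σ, hσ⟩ := fa.exists_rightInverse_of_surjective
    (LinearMap.range_eq_top.2 (snf.bN.equivFun.surjective.comp hN1))
  have hσ' : ∀ v, fa (σ v) = v := fun v => LinearMap.congr_fun hσ v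
  have hfa : ∀ x, fa x = 0 ↔ N x = 0 := fun x => by
    rw [← hker]
    exact snf.bN.equivFun.map_eq_zero_iff
  let P : F →ₗ[ℤ] LinearMap.ker N := (LinearMap.id - σ.comp fa).codRestrict _ fun x => by
    rw [LinearMap.mem_ker, ← hfa]
    simp [hσ']
  have hP : ∀ x, (P x : F) = x - σ (fa x) := fun x => rfl
  let u : Fin k → ℤ := fun i => if snf.a i < 0 then -1 else 1
  have hu : ∀ i, u i * u i = 1 := fun i => by simp only [u]; split_ifs <;> simp
  let fc : F →ₗ[ℤ] (Fin k → ℤ) :=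
    LinearMap.pi fun i => u i • (snf.bM.coord (snf.f i)).comp P
  let fr : F →ₗ[ℤ] ({j // j ∉ Set.range snf.f} → ℤ) :=
    LinearMap.pi fun j => (snf.bM.coord j.1).comp P
  have hfc : ∀ x i, fc x i = u i * snf.bM.repr (P x) (snf.f i) := fun x i => rfl
  have hfr : ∀ x j, fr x j = snf.bM.repr (P x) j.1 := fun x j => rfl
  refine ⟨Fin k, {j // j ∉ Set.range snf.f}, inferInstance, inferInstance,
    fun i => u i * snf.a i, fa.prod (fc.prod fr), fun i => ?_, ⟨?_, ?_⟩, fun x => ?_⟩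
  · simp only [u]
    split_ifs <;> omega
  · rw [injective_iff_map_eq_zero]
    intro x hx
    have h1 : fa x = 0 := congrArg Prod.fst hx
    have h2 : fc x = 0 := congrArg (fun p => p.2.1) hx
    have h3 : fr x = 0 := congrArg (fun p => p.2.2) hx
    have h4 : P x = 0 := by
      refine snf.bM.ext_elem fun j => ?_
      by_cases hj : j ∈ Set.range snf.f
      · obtain ⟨i, rfl⟩ := hj
        have := congrArg (u i * ·) ((hfc x i).symm.trans (congrFun h2 i))
        simpa [← mul_assoc, hu] using this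
      · simpa using (hfr x ⟨j, hj⟩).symm.trans (congrFun h3 ⟨j, hj⟩)
    have := hP x
    rw [h4, h1] at this
    simpa using this.symm
  · rintro ⟨a, c, r⟩
    let κ := snf.bM.equivFun.symm (Function.extend snf.f (fun i => u i * c i)
      fun j => if h : j ∉ Set.range snf.f then r ⟨j, h⟩ else 0)
    have h1 : fa (σ a + κ) = a := by rw [map_add, hσ', (hfa _).2 κ.2, add_zero]
    have h2 : P (σ a + κ) = κ := Subtype.ext (by rw [hP, h1]; simp)
    have h3 : ∀ j, snf.bM.repr κ j = _ := fun j =>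
      congrFun (snf.bM.equivFun.apply_symm_apply _) j
    refine ⟨σ a + κ, Prod.ext h1 (Prod.ext (funext fun i => ?_) (funext fun j => ?_))⟩
    · change fc _ i = c i
      rw [hfc, h2, h3, snf.f.injective.extend_apply, ← mul_assoc, hu, one_mul]
    · change fr _ j = r j
      rw [hfr, h2, h3, Function.extend_apply' _ _ _ j.2, dif_pos j.2]
  · have h1 : fa (N x) = 0 := (hfa _).2 (hN x)
    have h2 : P (N x) = N1 x := Subtype.ext (by rw [hP, h1, map_zero, sub_zero]; rfl)
    refine Prod.ext h1 (Prod.ext (funext fun i => ?_) (funext fun j => ?_))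
    · change fc _ i = u i * snf.a i * fa x i
      rw [hfc, h2, snf.repr_apply_embedding_eq_repr_smul, map_smul, mul_assoc]
      rfl
    · change fr _ j = 0
      rw [hfr, h2, snf.repr_eq_zero_of_notMem_range _ j.2]

theorem lin_fg {A : Type} [AddCommGroup A] [Module.Finite ℤ A]
    (N : A →ₗ[ℤ] A) (hN : ∀ x, N (N x) = 0) :
    ∃ (I R : Type) (_ : Fintype I) (_ : Fintype R) (d : I → ℤ)
      (f : A →ₗ[ℤ] (I → ℤ) × (I → ℤ) × (R → ℤ)), (∀ i, 0 ≤ d i) ∧ Function.Surjective f ∧
      {x | f x = 0}.Finite ∧ ∀ x, f (N x) = (0, fun i => d i * (f x).1 i, 0) := by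
  have hle : Submodule.torsion ℤ A ≤ (Submodule.torsion ℤ A).comap N := by
    rintro x ⟨a, ha⟩
    exact ⟨a, by rw [Submonoid.smul_def, ← map_smul, ← Submonoid.smul_def, ha, map_zero]⟩
  obtain ⟨I, R, _, _, d, f, h1, h2, h3⟩ := lin_free (Submodule.mapQ _ _ N hle) fun x => by
    obtain ⟨x, rfl⟩ := Submodule.mkQ_surjective _ x
    simp [hN]
  have : Finite (Submodule.torsion ℤ A) :=
    Module.finite_of_fg_torsion _ Submodule.torsion_isTorsion
  refine ⟨I, R, inferInstance, inferInstance, d, f.comp (Submodule.mkQ _), h1,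
    h2.2.comp (Submodule.mkQ_surjective _),
    (Set.toFinite (Submodule.torsion ℤ A : Set A)).subset fun x hx => ?_, fun x => h3 (Submodule.mkQ _ x)⟩
  exact (Submodule.Quotient.mk_eq_zero _).1 ((injective_iff_map_eq_zero f).1 h2.1 _ hx)

theorem model_of_coord {G A : Type} [Group G] [Group.FG G] [AddCommGroup A] (χ : G → ℤ)
    (α : G → A) (N : A →ₗ[ℤ] A) (hN : ∀ x, N (N x) = 0) (h1 : ∀ g g', χ (g * g') = χ g + χ g')
    (h2 : ∀ g g', α (g * g') = α g + α g' + χ g • N (α g'))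
    (h3 : Function.Bijective fun g => (χ g, α g)) :
    ∃ (I R : Type) (_ : Fintype I) (_ : Fintype R) (d : I → ℤ) (π : G →* Mo d R),
      (∀ i, 0 ≤ d i) ∧ Function.Surjective π ∧ Finite π.ker := by
  have c1 : χ 1 = 0 := by simpa using h1 1 1
  have a1 : α 1 = 0 := by simpa [c1] using h2 1 1
  have : Module.Finite ℤ A := by
    obtain ⟨X, hX, hf⟩ := Group.fg_iff.1 (inferInstance : Group.FG G)
    refine ⟨Submodule.fg_def.2 ⟨α '' X ∪ N '' (α '' X), (hf.image _).union ((hf.image _).image _),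
      eq_top_iff.2 fun x hx => ?_⟩⟩
    clear hx
    obtain ⟨g, hg⟩ := h3.2 (0, x)
    obtain rfl : α g = x := congrArg Prod.snd hg
    have hg' : g ∈ Subgroup.closure X := hX ▸ Subgroup.mem_top g
    have : α g ∈ Submodule.span ℤ (α '' X ∪ N '' (α '' X)) ∧
        N (α g) ∈ Submodule.span ℤ (α '' X ∪ N '' (α '' X)) := by
      clear hg
      induction hg' using Subgroup.closure_induction with
      | mem g hg => exact ⟨Submodule.subset_span (Or.inl ⟨g, hg, rfl⟩),
          Submodule.subset_span (Or.inr ⟨_, ⟨g, hg, rfl⟩, rfl⟩)⟩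
      | one => simp [a1]
      | mul a b _ _ ha hb =>
        rw [h2, map_add, map_add, map_smul, hN, smul_zero, add_zero]
        exact ⟨add_mem (add_mem ha.1 hb.1) (Submodule.smul_mem _ _ hb.2), add_mem ha.2 hb.2⟩
      | inv a _ ha =>
        have := h2 a⁻¹ a
        rw [inv_mul_cancel, a1] at this
        rw [show α a⁻¹ = -α a - χ a⁻¹ • N (α a) by
            rw [eq_sub_iff_add_eq, eq_neg_iff_add_eq_zero, this]; abel,
          map_sub, map_neg, map_smul, hN, smul_zero, sub_zero]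
        exact ⟨sub_mem (neg_mem ha.1) (Submodule.smul_mem _ _ ha.2), neg_mem ha.2⟩
    exact this.1
  obtain ⟨I, R, _, _, d, f, d0, fs, fk, fN⟩ := lin_fg N hN
  refine ⟨I, R, inferInstance, inferInstance, d, MonoidHom.mk'
    (fun g => ⟨χ g, (f (α g)).1, (f (α g)).2.1, (f (α g)).2.2⟩) fun g g' => ?_, d0, ?_, ?_⟩
  · ext <;> simp [h1, h2, fN]
    ring
  · rintro ⟨h, a, c, r⟩
    obtain ⟨x, hx⟩ := fs (a, c, r)
    obtain ⟨g, hg⟩ := h3.2 (h, x)
    obtain ⟨rfl, rfl⟩ := Prod.mk.inj hg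
    exact ⟨g, by simp [hx]⟩
  · refine (Set.Finite.preimage h3.1.injOn ((Set.finite_singleton 0).prod fk)).subset
      fun g hg => ?_
    have := Mo.ext_iff.1 (MonoidHom.mem_ker.1 hg)
    exact ⟨this.1, Prod.ext this.2.1 (Prod.ext this.2.2.1 this.2.2.2)⟩

theorem model_of_class {G : Type} [Group G] [Group.FG G] (h2 : ∀ x y z : G, ⁅⁅x, y⁆, z⁆ = 1)
    (χ : G →* Multiplicative ℤ) (hχ : Function.Surjective χ)
    (hab : ∀ x ∈ χ.ker, ∀ y ∈ χ.ker, ⁅x, y⁆ = 1) :
    ∃ (I R : Type) (_ : Fintype I) (_ : Fintype R) (d : I → ℤ) (π : G →* Mo d R),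
      (∀ i, 0 ≤ d i) ∧ Function.Surjective π ∧ Finite π.ker := by
  let _ : CommGroup χ.ker := { (inferInstance : Group χ.ker) with
    mul_comm := fun a b => Subtype.ext (commutatorElement_eq_one_iff_mul_comm.1
      (hab _ a.2 _ b.2)) }
  obtain ⟨t, ht⟩ := hχ (Multiplicative.ofAdd 1)
  have hc : ∀ x y z : G, Commute ⁅x, y⁆ z := fun x y z =>
    commutatorElement_eq_one_iff_commute.1 (h2 x y z)
  have hk : ∀ x y : G, ⁅x, y⁆ ∈ χ.ker := fun x y => by
    rw [MonoidHom.mem_ker, map_commutatorElement, commutatorElement_eq_one_iff_mul_comm, mul_comm]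
  let ν : χ.ker →* χ.ker := MonoidHom.mk' (fun a => ⟨⁅t, a⁆, hk _ _⟩) fun a b => Subtype.ext (by
    have := (hc t b a).eq
    change ⁅t, (a : G) * b⁆ = ⁅t, (a : G)⁆ * ⁅t, (b : G)⁆
    calc ⁅t, (a : G) * b⁆ = ⁅t, (a : G)⁆ * ((a : G) * ⁅t, (b : G)⁆) * (a : G)⁻¹ := by
          simp only [commutatorElement_def]; group
      _ = _ := by rw [← this]; group)
  have conj : ∀ (k : ℤ) (b : G), t ^ k * b = b * ⁅t, b⁆ ^ k * t ^ k := fun k b => by
    have e : t * b = b * ⁅t, b⁆ * t := by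
      rw [← (hc t b b).eq, commutatorElement_def]; group
    have s : SemiconjBy b (⁅t, b⁆ * t) t := by
      rw [SemiconjBy, e, mul_assoc]
    have := (s.zpow_right k).eq
    rw [(hc t b t).mul_zpow] at this
    rw [← this, mul_assoc]
  have hm : ∀ g : G, g * t ^ (-(χ g).toAdd) ∈ χ.ker := fun g => by
    rw [MonoidHom.mem_ker, map_mul, map_zpow, ht]
    apply Multiplicative.toAdd.injective
    simp
  refine model_of_coord (A := Additive χ.ker) (fun g => (χ g).toAdd)
    (fun g => Additive.ofMul ⟨_, hm g⟩) ν.toAdditive.toIntLinearMap (fun x => ?_)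
    (fun g g' => by simp) (fun g g' => ?_) ⟨fun g g' h => ?_, ?_⟩
  · exact Subtype.ext (hc _ _ t).symm.commutator_eq
  · apply Additive.toMul.injective
    apply Subtype.ext
    change g * g' * t ^ (-(χ (g * g')).toAdd) = g * t ^ (-(χ g).toAdd) *
      (g' * t ^ (-(χ g').toAdd)) * ⁅t, g' * t ^ (-(χ g').toAdd)⁆ ^ (χ g).toAdd
    have := conj (χ g).toAdd (g' * t ^ (-(χ g').toAdd))
    have h3 := commutatorElement_eq_one_iff_mul_comm.1 (hab _ (hm g) _ (hm g'))
    rw [map_mul, toAdd_mul, mul_assoc (g * _), ← mul_inv_eq_iff_eq_mul.2 this]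
    group
  · obtain ⟨e1, e2⟩ := Prod.mk.inj h
    have e3 : g * t ^ (-(χ g).toAdd) = g' * t ^ (-(χ g').toAdd) :=
      congrArg (fun x => ((Additive.toMul x : χ.ker) : G)) e2
    beta_reduce at e1
    rw [e1] at e3
    exact mul_right_cancel e3
  · rintro ⟨k, x⟩
    have e : (χ ((Additive.toMul x : χ.ker) * t ^ k)).toAdd = k := by
      rw [map_mul, MonoidHom.mem_ker.1 (Additive.toMul x).2, map_zpow, ht]
      simp
    refine ⟨(Additive.toMul x : χ.ker) * t ^ k, Prod.ext e ?_⟩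
    apply Additive.toMul.injective
    apply Subtype.ext
    change _ * _ * t ^ (-(χ _).toAdd) = _
    rw [e]
    simp

end Pool.Agent.P.MP_a0f0ad_al
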