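import Pool.Agent.P.MP_a0f0ad_al.Fun

/-! Walks on the integers and realisation of the admissible configurations. -/

set_option autoImplicit false

namespace Pool.Agent.P.MP_a0f0ad_al
open Finset

def IsW (n : ℕ) (H : ℕ → ℤ) : Prop :=
  H 0 = 0 ∧ ∀ l < n, H (l + 1) = H l + 1 ∨ H (l + 1) = H l - 1

/-- the edge used at step `l` -/
def yy (H : ℕ → ℤ) (l : ℕ) : ℤ := min (H l) (H (l + 1))

/-- indicator of a down step -/
def dn (H : ℕ → ℤ) (l : ℕ) : ℤ := if H (l + 1) < H l then 1 else 0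

def GW (n : ℕ) (H : ℕ → ℤ) (α : ℤ) : ℤ :=
  ∑ l ∈ range n, (max (yy H l - α) 0 - dn H l * (yy H l - α))

theorem IsW.mono {n : ℕ} {H : ℕ → ℤ} (h : IsW (n + 1) H) : IsW n H :=
  ⟨h.1, fun l hl => h.2 l (by omega)⟩

theorem IsW.facts {n : ℕ} {H : ℕ → ℤ} (h : IsW n H) :
    2 * ∑ l ∈ range n, dn H l = n - H n ∧
    ∑ l ∈ range n, yy H l - 2 * ∑ l ∈ range n, dn H l * yy H l = tri (H n) ∧
    |H n| ≤ n ∧ ∀ l < n, |yy H l| ≤ n := by
  induction n with
  | zero => simp [h.1, tri_zero]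
  | succ n ih =>
    obtain ⟨h1, h2, h3, h4⟩ := ih h.mono
    have h5 : ∀ l < n + 1, |yy H n| ≤ (n + 1 : ℕ) → |yy H l| ≤ (n + 1 : ℕ) := fun l hl h6 => by
      rcases Nat.lt_succ_iff_lt_or_eq.1 hl with h7 | rfl
      · have := h4 l h7
        omega
      · exact h6
    simp only [sum_range_succ]
    rw [abs_le] at h3
    rcases h.2 n (by omega) with e | e
    · have e1 : yy H n = H n := by rw [yy]; omega
      have e2 : dn H n = 0 := by rw [dn, if_neg (by omega)]
      refine ⟨by omega, ?_, by rw [abs_le]; omega, fun l hl => h5 l hl (by rw [abs_le]; omega)⟩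
      rw [e, tri_succ, e1, e2]
      omega
    · have e1 : yy H n = H n - 1 := by rw [yy]; omega
      have e2 : dn H n = 1 := by rw [dn, if_pos (by omega)]
      refine ⟨by omega, ?_, by rw [abs_le]; omega, fun l hl => h5 l hl (by rw [abs_le]; omega)⟩
      have := tri_succ (H n - 1)
      rw [sub_add_cancel] at this
      rw [e, e1, e2]
      omega

def Wk (N x : ℤ) (G : ℤ → ℤ) : Prop :=
  ∃ (n : ℕ) (H : ℕ → ℤ), (n : ℤ) = N ∧ IsW n H ∧ H n = x ∧ ∀ α, GW n H α = G α

theorem Wk.congr {N N' x x' : ℤ} {G G' : ℤ → ℤ} (h : Wk N x G) (h1 : N = N') (h2 : x = x')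
    (h3 : ∀ α, G α = G' α) : Wk N' x' G' := by
  rw [← h1, ← h2, ← funext h3]
  exact h

theorem wk_zero : Wk 0 0 fun _ => 0 := ⟨0, fun _ => 0, rfl, ⟨rfl, by simp⟩, rfl, by simp [GW]⟩

theorem Wk.step {N x v : ℤ} {G : ℤ → ℤ} (h : Wk N x G) (hv : v = x + 1 ∨ v = x - 1) :
    Wk (N + 1) v fun α =>
      G α + (max (min x v - α) 0 - (if v < x then 1 else 0) * (min x v - α)) := by
  obtain ⟨n, H, rfl, hW, rfl, hG⟩ := h
  have e : ∀ l ≤ n, Function.update H (n + 1) v l = H l := fun l hl =>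
    Function.update_of_ne (by omega) _ _
  refine ⟨n + 1, Function.update H (n + 1) v, by simp, ⟨(e 0 n.zero_le).trans hW.1, ?_⟩,
    Function.update_self _ _ _, fun α => ?_⟩
  · intro l hl
    rcases Nat.lt_succ_iff_lt_or_eq.1 hl with h7 | rfl
    · rw [e l h7.le, e (l + 1) h7]
      exact hW.2 l h7
    · rw [e l le_rfl, Function.update_self]
      exact hv
  · beta_reduce
    rw [GW, sum_range_succ, ← hG α, GW]
    congr 1
    · refine sum_congr rfl fun l hl => ?_
      have hl' := mem_range.1 hl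
      simp only [yy, dn, e l hl'.le, e (l + 1) hl']
    · simp only [yy, dn, e n le_rfl, Function.update_self]

theorem Wk.up {N u v : ℤ} {G : ℤ → ℤ} (h : Wk N u G) (huv : u ≤ v) :
    Wk (N + (v - u)) v fun α => G α + (pp (v - α) - pp (u - α)) := by
  induction v, huv using Int.leInduction with
  | base => exact h.congr (by ring) rfl fun α => by ring
  | succ v hv ih =>
    refine (ih.step (Or.inl rfl)).congr (by ring) rfl fun α => ?_
    rw [show v + 1 - α = v - α + 1 by ring, pp_succ, if_neg (by omega), min_eq_left (by omega)]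
    ring

theorem Wk.dn {N u v : ℤ} {G : ℤ → ℤ} (h : Wk N u G) (huv : v ≤ u) :
    Wk (N + (u - v)) v fun α =>
      G α + (pp (u - α) - tri (u - α) - (pp (v - α) - tri (v - α))) := by
  induction v, huv using Int.leInductionDown with
  | base => exact h.congr (by ring) rfl fun α => by ring
  | pred v hv ih =>
    refine (ih.step (Or.inr rfl)).congr (by ring) rfl fun α => ?_
    have h1 := pp_succ (v - 1 - α)
    have h2 := tri_succ (v - 1 - α)
    rw [show v - 1 - α + 1 = v - α by ring] at h1 h2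
    rw [h1, h2, if_pos (by omega), min_eq_right (by omega)]
    ring

theorem realize {L x A z : ℤ} (h : Val L x A z) :
    Wk (2 * L - |x|) x fun α => Phi L A z α - kap x α := by
  unfold Val at h
  have q1 : ∀ u α, qq (u + 1 - α) = qq (u - α) + |u - α| := fun u α => by
    rw [show u + 1 - α = u - α + 1 by ring, qq_succ]
  rcases le_total 0 x with hx | hx
  · rw [abs_of_nonneg hx]
    by_cases hz : z = A
    · refine (((wk_zero.dn (v := A) (by omega)).up (v := A + L) (by omega)).dn (v := x)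
        (by omega)).congr (by ring) rfl fun α => ?_
      rw [kap_pos hx, Phi, hz, qq, qq]
      ring
    · refine (((((wk_zero.dn (v := A + 1) (by omega)).up (v := z + 1) (by omega)).dn (v := z)
        (by omega)).up (v := A + L) (by omega)).dn (v := x) (by omega)).congr (by ring) rfl
          fun α => ?_
      have h1 := q1 A α
      have h2 := q1 z α
      simp only [qq] at h1 h2
      rw [kap_pos hx, Phi, qq, qq]
      linarith
  · rw [abs_of_nonpos hx]
    by_cases hz : z = A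
    · refine (((wk_zero.up (v := A + L) (by omega)).dn (v := A) (by omega)).up (v := x)
        (by omega)).congr (by ring) rfl fun α => ?_
      rw [kap_neg hx, Phi, hz, qq, qq]
      ring
    · refine (((((wk_zero.up (v := A + L) (by omega)).dn (v := z) (by omega)).up (v := z + 1)
        (by omega)).dn (v := A + 1) (by omega)).up (v := x) (by omega)).congr (by ring) rfl
          fun α => ?_
      have h1 := q1 A α
      have h2 := q1 z α
      simp only [qq] at h1 h2
      rw [kap_neg hx, Phi, qq, qq]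
      linarith

theorem exists_thr {n : ℕ} {y : ℕ → ℤ} {R : ℤ} (hy : ∀ l < n, |y l| ≤ R) {s : Finset ℕ}
    (hs : s ⊆ range n) (h : ∀ k ∈ s, ∀ l ∈ range n, l ∉ s → y l ≤ y k) :
    ∃ α, ∑ l ∈ s, y l = α * s.card + ∑ l ∈ range n, max (y l - α) 0 := by
  have : ∃ α, (∀ k ∈ s, α ≤ y k) ∧ ∀ l ∈ range n, l ∉ s → y l ≤ α := by
    rcases s.eq_empty_or_nonempty with rfl | hne
    · exact ⟨R, by simp, fun l hl _ => (abs_le.1 (hy l (mem_range.1 hl))).2⟩
    · obtain ⟨k, hk, hm⟩ := exists_min_image s y hne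
      exact ⟨y k, hm, h k hk⟩
  obtain ⟨α, h1, h2⟩ := this
  refine ⟨α, ?_⟩
  rw [← sum_subset hs (f := fun l => max (y l - α) 0) fun l hl hl' => by
      have := h2 l hl hl'
      omega,
    sum_congr rfl (f := fun l => max (y l - α) 0) (g := fun l => y l - α) fun l hl => by
      have := h1 l hl
      omega, sum_sub_distrib, sum_const, nsmul_eq_mul]
  ring

theorem max_or_swap {n : ℕ} {y : ℕ → ℤ} {R : ℤ} (hy : ∀ l < n, |y l| ≤ R) {s : Finset ℕ}
    (hs : s ⊆ range n) :
    (∃ α, ∑ l ∈ s, y l = α * s.card + ∑ l ∈ range n, max (y l - α) 0) ∨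
      ∃ t ⊆ range n, t.card = s.card ∧ ∑ l ∈ s, y l < ∑ l ∈ t, y l ∧
        ∑ l ∈ t, y l ≤ ∑ l ∈ s, y l + 2 * R := by
  by_cases h : ∀ k ∈ s, ∀ l ∈ range n, l ∉ s → y l ≤ y k
  · exact Or.inl (exists_thr hy hs h)
  simp only [not_forall, not_le] at h
  obtain ⟨k, hk, l, hl, hl', h⟩ := h
  have hn : l ∉ s.erase k := fun h => hl' (mem_of_mem_erase h)
  have e := add_sum_erase s y hk
  have h1 := abs_le.1 (hy l (mem_range.1 hl))
  have h2 := abs_le.1 (hy k (mem_range.1 (hs hk)))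
  refine Or.inr ⟨insert l (s.erase k), insert_subset hl ((erase_subset _ _).trans hs), ?_, ?_, ?_⟩
  · rw [card_insert_of_notMem hn, card_erase_add_one hk]
  · rw [sum_insert hn]; omega
  · rw [sum_insert hn]; omega

theorem exists_subset {n : ℕ} {y : ℕ → ℤ} {R d E τ : ℤ} (hy : ∀ l < n, |y l| ≤ R) (hd : 0 ≤ d)
    (hE : d * R ≤ E) {i : ℕ} (hi : i ≤ n)
    (h1 : ∀ α, τ ≤ d * (α * i + ∑ l ∈ range n, max (y l - α) 0) + E)
    (h2 : ∀ α, -τ ≤ d * (α * i + ∑ l ∈ range n, max (-y l - α) 0) + E) :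
    ∃ s ⊆ range n, s.card = i ∧ |τ - d * ∑ l ∈ s, y l| ≤ E := by
  obtain ⟨s0, hs0, hm0⟩ := exists_max_image (powersetCard i (range n)) (fun s => ∑ l ∈ s, -y l)
    (powersetCard_nonempty.2 (by simpa using hi))
  have h3 : d * ∑ l ∈ s0, y l ≤ τ + E := by
    rcases max_or_swap (y := fun l => -y l) (R := R) (fun l hl => by simpa using hy l hl)
      (mem_powersetCard.1 hs0).1 with ⟨α, e⟩ | ⟨t, ht, e1, e2, -⟩
    · have := h2 α
      rw [(mem_powersetCard.1 hs0).2] at e
      rw [← e, sum_neg_distrib, mul_neg] at this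
      omega
    · exact absurd (hm0 t (mem_powersetCard.2 ⟨ht, e1.trans (mem_powersetCard.1 hs0).2⟩))
        (not_le.2 e2)
  obtain ⟨s, hs, hm⟩ := exists_max_image
    ((powersetCard i (range n)).filter fun s => d * ∑ l ∈ s, y l ≤ τ + E) (fun s => ∑ l ∈ s, y l)
    ⟨s0, mem_filter.2 ⟨hs0, h3⟩⟩
  obtain ⟨hs, hs'⟩ := mem_filter.1 hs
  obtain ⟨hs1, hs2⟩ := mem_powersetCard.1 hs
  refine ⟨s, hs1, hs2, abs_le.2 ⟨by omega, ?_⟩⟩
  rcases max_or_swap hy hs1 with ⟨α, e⟩ | ⟨t, ht, e1, e2, e3⟩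
  · have := h1 α
    rw [← hs2, ← e] at this
    omega
  · by_contra hc
    refine absurd (hm t (mem_filter.2 ⟨mem_powersetCard.2 ⟨ht, e1.trans hs2⟩, ?_⟩)) (not_le.2 e2)
    have := mul_le_mul_of_nonneg_left e3 hd
    nlinarith

theorem GW_eq (n : ℕ) (H : ℕ → ℤ) (α : ℤ) : GW n H α = ∑ l ∈ range n, max (yy H l - α) 0 -
    ∑ l ∈ range n, dn H l * yy H l + α * ∑ l ∈ range n, dn H l := by
  rw [GW, mul_sum, ← sum_sub_distrib, ← sum_add_distrib]
  exact sum_congr rfl fun l _ => by ring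

theorem IsW.card {n : ℕ} {H : ℕ → ℤ} (h : IsW n H) {a : ℤ} (ha : |2 * a - H n| ≤ n) :
    ∃ i ≤ n, (i : ℤ) = a + ∑ l ∈ range n, dn H l := by
  have := h.facts.1
  rw [abs_le] at ha
  exact ⟨(a + ∑ l ∈ range n, dn H l).toNat, by omega, by omega⟩

theorem IsW.subset {n : ℕ} {H : ℕ → ℤ} (h : IsW n H) {d D a c : ℤ} (hd : 0 ≤ d) (hD : d ≤ D)
    (ha : |2 * a - H n| ≤ n) (h1 : ∀ α, c - D * n ≤ d * (α * a + GW n H α))
    (h2 : ∀ α, d * tri (H n) - c - D * n ≤ d * (α * (H n - a) + GW n H α)) :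
    ∃ s ⊆ range n, (s.card : ℤ) = a + ∑ l ∈ range n, dn H l ∧
      |c - d * (∑ l ∈ s, yy H l - ∑ l ∈ range n, dn H l * yy H l)| ≤ D * n := by
  obtain ⟨i, hi, e⟩ := h.card ha
  obtain ⟨f1, f2, -, f4⟩ := h.facts
  obtain ⟨s, hs, e1, e2⟩ := exists_subset (τ := c + d * ∑ l ∈ range n, dn H l * yy H l) f4 hd
    (mul_le_mul_of_nonneg_right hD (Int.natCast_nonneg n)) hi (fun α => by
      have := h1 α
      rw [GW_eq] at this
      rw [e]
      linarith) fun α => by
      have := h2 (-α)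
      have e3 : ∑ l ∈ range n, max (-yy H l - α) 0 = ∑ l ∈ range n, max (yy H l - -α) 0 -
          ∑ l ∈ range n, yy H l - α * n := by
        rw [← sum_sub_distrib, eq_sub_iff_add_eq, show α * n = ∑ _l ∈ range n, α by
          simp [mul_comm], ← sum_add_distrib]
        exact sum_congr rfl fun l _ => by omega
      rw [GW_eq, ← f2, show H n = n - 2 * ∑ l ∈ range n, dn H l by omega] at this
      rw [e, e3]
      linarith
  refine ⟨s, hs, by rw [e1, e], ?_⟩
  convert e2 using 2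
  ring

theorem sum_le_GW {n : ℕ} (H : ℕ → ℤ) {s : Finset ℕ} (hs : s ⊆ range n) (α : ℤ) :
    ∑ l ∈ s, yy H l ≤ α * s.card + ∑ l ∈ range n, max (yy H l - α) 0 := by
  have h1 : ∑ l ∈ s, (yy H l - α) ≤ ∑ l ∈ range n, max (yy H l - α) 0 :=
    (sum_le_sum fun l _ => le_max_left _ 0).trans
      (sum_le_sum_of_subset_of_nonneg hs fun l _ _ => le_max_right _ _)
  rw [sum_sub_distrib, sum_const, nsmul_eq_mul] at h1
  linarith

theorem tri_le {L x A a : ℤ} (hv : Val L x A A) (ha : |2 * a - x| ≤ 2 * L - |x|) :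
    tri x ≤ mm L x A a + mm L x A (x - a) := by
  obtain ⟨n, H, e, hW, rfl, hG⟩ := realize hv
  obtain ⟨i, hi, e1⟩ := hW.card (a := a) (by rw [e]; exact ha)
  obtain ⟨f1, f2, -, -⟩ := hW.facts
  have h1 := sum_le_GW H (range_subset_range.2 hi) (al L (H n) A a)
  have h2 := sum_le_GW H (sdiff_subset (s := range n) (t := range i)) (al L (H n) A (H n - a))
  have h3 := sum_sdiff (range_subset_range.2 hi) (f := yy H)
  rw [card_sdiff_of_subset (range_subset_range.2 hi), card_range, card_range,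
    Nat.cast_sub hi] at h2
  rw [card_range] at h1
  have g1 := hG (al L (H n) A a)
  have g2 := hG (al L (H n) A (H n - a))
  beta_reduce at g1 g2
  rw [mm, mm, gg, gg, ← g1, ← g2, GW_eq, GW_eq]
  rw [e1] at h1
  rw [e1, show (n : ℤ) - (a + ∑ l ∈ range n, dn H l) = H n - a + ∑ l ∈ range n, dn H l by omega]
    at h2
  linarith

end Pool.Agent.P.MP_a0f0ad_al
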